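import Pool.Agent.R279.PC.Build

/-!
# Circumscribed polygons of a convex curve: the basic functions

`H 0` is the support function of a closed convex curve and `H k` its `k`-th derivative.
-/

namespace Pool.Agent.R279.OB

open Real Set MeasureTheory Filter Topology
open Pool.Agent.R279.PC (Jet der_H der_sub)

/-- `1 / sin u`. -/
noncomputable def cs (u : ℝ) : ℝ := 1 / sin u

/-- `cot u`. -/
noncomputable def cu (u : ℝ) : ℝ := cos u / sin u

theorem cs_sq {u : ℝ} (h : sin u ≠ 0) : cs u ^ 2 = 1 + cu u ^ 2 := by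
  unfold cs cu
  have h1 := sin_sq_add_cos_sq u
  field_simp
  linarith

theorem hasDerivAt_cs {u : ℝ} (h : sin u ≠ 0) : HasDerivAt cs (-(cs u * cu u)) u := by
  have h2 := (hasDerivAt_const u (1 : ℝ)).div (hasDerivAt_sin u) h
  refine h2.congr_deriv ?_
  unfold cs cu
  field_simp
  ring

theorem hasDerivAt_cu {u : ℝ} (h : sin u ≠ 0) : HasDerivAt cu (-cs u ^ 2) u := by
  have h2 := (hasDerivAt_cos u).div (hasDerivAt_sin u) h
  refine h2.congr_deriv ?_
  have h1 := sin_sq_add_cos_sq u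
  unfold cs
  field_simp
  linear_combination -h1

variable {H : ℕ → ℝ → ℝ}

/-- The signed length of the tangent segment from the point of tangency `x` to the intersection
point of the tangent lines `x` and `y`. -/
noncomputable def sp (H : ℕ → ℝ → ℝ) (x y : ℝ) : ℝ :=
  H 0 y * cs (y - x) - H 0 x * cu (y - x) - H 1 x

/-- The signed length of the tangent segment from the intersection
point of the tangent lines `x` and `y` to the point of tangency `y`. -/
noncomputable def sm (H : ℕ → ℝ → ℝ) (x y : ℝ) : ℝ :=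
  H 1 y - H 0 y * cu (y - x) + H 0 x * cs (y - x)

/-- The defect. -/
noncomputable def nn (H : ℕ → ℝ → ℝ) (x y : ℝ) : ℝ := H 0 x * sp H x y - H 0 y * sm H x y

/-- `∂ nn / ∂ x`. -/
noncomputable def nnx (H : ℕ → ℝ → ℝ) (x y : ℝ) : ℝ :=
  H 1 x * sp H x y + H 0 x * (sp H x y * cu (y - x) - (H 0 x + H 2 x))
    + H 0 y * (sp H x y * cs (y - x))

/-- `∂ nn / ∂ y`. -/
noncomputable def nny (H : ℕ → ℝ → ℝ) (x y : ℝ) : ℝ :=
  H 0 x * (sm H x y * cs (y - x)) - H 1 y * sm H x y
    - H 0 y * (H 0 y + H 2 y - sm H x y * cu (y - x))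

/-- First component of the field. -/
noncomputable def al (H : ℕ → ℝ → ℝ) (x y : ℝ) : ℝ := H 0 x * (sm H x y * cs (y - x))

/-- Second component of the field. -/
noncomputable def be (H : ℕ → ℝ → ℝ) (x y : ℝ) : ℝ := H 0 y * (sp H x y * cs (y - x))

/-- `∂ al / ∂ x`. -/
noncomputable def alx (H : ℕ → ℝ → ℝ) (x y : ℝ) : ℝ :=
  H 1 x * (sm H x y * cs (y - x)) + H 0 x * (-(sp H x y * cs (y - x)) * cs (y - x)
    + sm H x y * (cs (y - x) * cu (y - x)))

/-- `∂ al / ∂ y`. -/
noncomputable def aly (H : ℕ → ℝ → ℝ) (x y : ℝ) : ℝ :=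
  H 0 x * ((H 0 y + H 2 y - sm H x y * cu (y - x)) * cs (y - x)
    - sm H x y * (cs (y - x) * cu (y - x)))

/-- `∂ be / ∂ x`. -/
noncomputable def bex (H : ℕ → ℝ → ℝ) (x y : ℝ) : ℝ :=
  H 0 y * ((sp H x y * cu (y - x) - (H 0 x + H 2 x)) * cs (y - x)
    + sp H x y * (cs (y - x) * cu (y - x)))

/-- `∂ be / ∂ y`. -/
noncomputable def bey (H : ℕ → ℝ → ℝ) (x y : ℝ) : ℝ :=
  H 1 y * (sp H x y * cs (y - x)) + H 0 y * (sm H x y * cs (y - x) * cs (y - x)
    - sp H x y * (cs (y - x) * cu (y - x)))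

section deriv

variable {X Y : ℝ → ℝ} {X' Y' t : ℝ}

theorem der_cs (hX : HasDerivAt X X' t) (hY : HasDerivAt Y Y' t) (hs : sin (Y t - X t) ≠ 0) :
    HasDerivAt (fun t => cs (Y t - X t)) (cs (Y t - X t) * cu (Y t - X t) * (X' - Y')) t := by
  refine ((hasDerivAt_cs hs).comp t (der_sub hX hY)).congr_deriv ?_
  ring

theorem der_cu (hX : HasDerivAt X X' t) (hY : HasDerivAt Y Y' t) (hs : sin (Y t - X t) ≠ 0) :
    HasDerivAt (fun t => cu (Y t - X t)) (cs (Y t - X t) ^ 2 * (X' - Y')) t := by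
  refine ((hasDerivAt_cu hs).comp t (der_sub hX hY)).congr_deriv ?_
  ring

theorem der_sp (hH : Jet H) (hX : HasDerivAt X X' t) (hY : HasDerivAt Y Y' t)
    (hs : sin (Y t - X t) ≠ 0) :
    HasDerivAt (fun t => sp H (X t) (Y t))
      ((sp H (X t) (Y t) * cu (Y t - X t) - (H 0 (X t) + H 2 (X t))) * X'
        + sm H (X t) (Y t) * cs (Y t - X t) * Y') t := by
  have h := (((der_H hH 0 hY).mul (der_cs hX hY hs)).sub
    ((der_H hH 0 hX).mul (der_cu hX hY hs))).sub (der_H hH 1 hX)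
  refine h.congr_deriv ?_
  have h1 := cs_sq hs
  unfold sp sm
  simp only [zero_add, Nat.reduceAdd]
  linear_combination (-H 0 (X t) * X') * h1

theorem der_sm (hH : Jet H) (hX : HasDerivAt X X' t) (hY : HasDerivAt Y Y' t)
    (hs : sin (Y t - X t) ≠ 0) :
    HasDerivAt (fun t => sm H (X t) (Y t))
      (-(sp H (X t) (Y t) * cs (Y t - X t)) * X'
        + (H 0 (Y t) + H 2 (Y t) - sm H (X t) (Y t) * cu (Y t - X t)) * Y') t := by
  have h := ((der_H hH 1 hY).sub ((der_H hH 0 hY).mul (der_cu hX hY hs))).add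
    ((der_H hH 0 hX).mul (der_cs hX hY hs))
  refine h.congr_deriv ?_
  have h1 := cs_sq hs
  unfold sp sm
  simp only [zero_add, Nat.reduceAdd]
  linear_combination (H 0 (Y t) * Y') * h1

theorem der_nn (hH : Jet H) (hX : HasDerivAt X X' t) (hY : HasDerivAt Y Y' t)
    (hs : sin (Y t - X t) ≠ 0) :
    HasDerivAt (fun t => nn H (X t) (Y t)) (nnx H (X t) (Y t) * X' + nny H (X t) (Y t) * Y') t := by
  have h := ((der_H hH 0 hX).mul (der_sp hH hX hY hs)).sub
    ((der_H hH 0 hY).mul (der_sm hH hX hY hs))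
  refine h.congr_deriv ?_
  unfold nnx nny
  simp only [zero_add]
  ring

theorem der_al (hH : Jet H) (hX : HasDerivAt X X' t) (hY : HasDerivAt Y Y' t)
    (hs : sin (Y t - X t) ≠ 0) :
    HasDerivAt (fun t => al H (X t) (Y t)) (alx H (X t) (Y t) * X' + aly H (X t) (Y t) * Y') t := by
  have h := (der_H hH 0 hX).mul ((der_sm hH hX hY hs).mul (der_cs hX hY hs))
  refine h.congr_deriv ?_
  unfold alx aly
  simp only [zero_add, Pi.mul_apply]
  ring

theorem der_be (hH : Jet H) (hX : HasDerivAt X X' t) (hY : HasDerivAt Y Y' t)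
    (hs : sin (Y t - X t) ≠ 0) :
    HasDerivAt (fun t => be H (X t) (Y t)) (bex H (X t) (Y t) * X' + bey H (X t) (Y t) * Y') t := by
  have h := (der_H hH 0 hY).mul ((der_sp hH hX hY hs).mul (der_cs hX hY hs))
  refine h.congr_deriv ?_
  unfold bex bey
  simp only [zero_add, Pi.mul_apply]
  ring

end deriv

/-- The divergence identity. -/
theorem div_id (x y : ℝ) :
    alx H x y + bey H x y = -(2 * cs (y - x) ^ 2 * nn H x y) := by
  unfold alx bey nn sp sm
  ring

/-- A leaf: `φ x` is the second tangency point of the leaf point on the tangent line at `x`. -/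
structure Leaf (H : ℕ → ℝ → ℝ) (φ φ' : ℝ → ℝ) : Prop where
  der : ∀ x, HasDerivAt φ (φ' x) x
  cont : Continuous φ'
  pos : ∀ x, 0 < φ' x
  per : ∀ x, φ (x + 2 * π) = φ x + 2 * π
  gt : ∀ x, x < φ x
  lt : ∀ x, φ x < x + π
  el : ∀ x, sp H (φ x) (φ (φ x)) = sm H x (φ x)

/-- Positive curvature. -/
def Conv (H : ℕ → ℝ → ℝ) : Prop := ∀ x, 0 < H 0 x + H 2 x

/-- `d / dt (h' sin (y - t) + h cos (y - t))`. -/
theorem der_k1 (hH : Jet H) (y t : ℝ) :
    HasDerivAt (fun t => H 1 t * sin (y - t) + H 0 t * cos (y - t))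
      ((H 0 t + H 2 t) * sin (y - t)) t := by
  have h0 : HasDerivAt (fun t : ℝ => y - t) (-1) t := by simpa using (hasDerivAt_id t).const_sub y
  have h := ((hH.der 1 t).mul h0.sin).add ((hH.der 0 t).mul h0.cos)
  refine h.congr_deriv ?_
  simp only [zero_add, Nat.reduceAdd]
  ring

theorem der_k2 (hH : Jet H) (x t : ℝ) :
    HasDerivAt (fun t => H 1 t * sin (t - x) - H 0 t * cos (t - x))
      ((H 0 t + H 2 t) * sin (t - x)) t := by
  have h0 : HasDerivAt (fun t : ℝ => t - x) 1 t := by simpa using (hasDerivAt_id t).sub_const x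
  have h := ((hH.der 1 t).mul h0.sin).sub ((hH.der 0 t).mul h0.cos)
  refine h.congr_deriv ?_
  simp only [zero_add, Nat.reduceAdd]
  ring

theorem k1_pos (hH : Jet H) (hc : Conv H) {x y : ℝ} (h1 : x < y) (h2 : y < x + π) :
    0 < H 0 y - H 0 x * cos (y - x) - H 1 x * sin (y - x) := by
  have hcont : ContinuousOn (fun t => H 1 t * sin (y - t) + H 0 t * cos (y - t)) (Icc x y) :=
    fun t _ => (der_k1 hH y t).continuousAt.continuousWithinAt
  obtain ⟨t, ht, h3⟩ := exists_hasDerivAt_eq_slope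
    (fun t => H 1 t * sin (y - t) + H 0 t * cos (y - t))
    (fun t => (H 0 t + H 2 t) * sin (y - t)) h1 hcont (fun t _ => der_k1 hH y t)
  have h4 : 0 < (H 0 t + H 2 t) * sin (y - t) :=
    mul_pos (hc t) (sin_pos_of_pos_of_lt_pi (by linarith [ht.2]) (by linarith [ht.1]))
  rw [h3] at h4
  have h5 := (div_pos_iff_of_pos_right (sub_pos.2 h1)).1 h4
  simp only [sub_self, sin_zero, cos_zero, mul_zero, mul_one, zero_add] at h5
  linarith

theorem k2_pos (hH : Jet H) (hc : Conv H) {x y : ℝ} (h1 : x < y) (h2 : y < x + π) :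
    0 < H 1 y * sin (y - x) - H 0 y * cos (y - x) + H 0 x := by
  have hcont : ContinuousOn (fun t => H 1 t * sin (t - x) - H 0 t * cos (t - x)) (Icc x y) :=
    fun t _ => (der_k2 hH x t).continuousAt.continuousWithinAt
  obtain ⟨t, ht, h3⟩ := exists_hasDerivAt_eq_slope
    (fun t => H 1 t * sin (t - x) - H 0 t * cos (t - x))
    (fun t => (H 0 t + H 2 t) * sin (t - x)) h1 hcont (fun t _ => der_k2 hH x t)
  have h4 : 0 < (H 0 t + H 2 t) * sin (t - x) :=
    mul_pos (hc t) (sin_pos_of_pos_of_lt_pi (by linarith [ht.1]) (by linarith [ht.2]))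
  rw [h3] at h4
  have h5 := (div_pos_iff_of_pos_right (sub_pos.2 h1)).1 h4
  simp only [sub_self, sin_zero, cos_zero, mul_zero, mul_one, zero_add] at h5
  linarith

theorem sp_mul {x y : ℝ} (hs : sin (y - x) ≠ 0) :
    sp H x y = (H 0 y - H 0 x * cos (y - x) - H 1 x * sin (y - x)) / sin (y - x) := by
  unfold sp cs cu
  field_simp

theorem sm_mul {x y : ℝ} (hs : sin (y - x) ≠ 0) :
    sm H x y = (H 1 y * sin (y - x) - H 0 y * cos (y - x) + H 0 x) / sin (y - x) := by
  unfold sm cs cu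
  field_simp

theorem sin_pos' {x y : ℝ} (h1 : x < y) (h2 : y < x + π) : 0 < sin (y - x) :=
  sin_pos_of_pos_of_lt_pi (by linarith) (by linarith)

theorem sp_pos (hH : Jet H) (hc : Conv H) {x y : ℝ} (h1 : x < y) (h2 : y < x + π) :
    0 < sp H x y := by
  rw [sp_mul (sin_pos' h1 h2).ne']
  exact div_pos (k1_pos hH hc h1 h2) (sin_pos' h1 h2)

theorem sm_pos (hH : Jet H) (hc : Conv H) {x y : ℝ} (h1 : x < y) (h2 : y < x + π) :
    0 < sm H x y := by
  rw [sm_mul (sin_pos' h1 h2).ne']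
  exact div_pos (k2_pos hH hc h1 h2) (sin_pos' h1 h2)

end Pool.Agent.R279.OB
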