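import Pool.Agent.R279.OB.Limit
import Pool.Agent.R279.PC.Concl

/-!
# The square of the support function is a trigonometric polynomial
-/

namespace Pool.Agent.R279.OB

open Real Set MeasureTheory Filter Topology
open Pool.Agent.R279.PC (Jet der_H der_sub dom slice harmonic)

variable {H : ℕ → ℝ → ℝ} {Φ P Q R : ℝ → ℝ → ℝ} {M : ℝ}

theorem step {f g f' g' : ℝ → ℝ} {a b : ℝ} (h : ∀ y ∈ Ioo a b, f y = g y)
    (hf : ∀ y, HasDerivAt f (f' y) y) (hg : ∀ y, HasDerivAt g (g' y) y) :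
    ∀ y ∈ Ioo a b, f' y = g' y := by
  intro y hy
  refine (hf y).unique ((hg y).congr_of_eventuallyEq ?_)
  filter_upwards [Ioo_mem_nhds hy.1 hy.2] with t ht using h t ht

/-- `(h²)'`. -/
noncomputable def W1 (H : ℕ → ℝ → ℝ) (x : ℝ) : ℝ := 2 * (H 0 x * H 1 x)

/-- `(h²)''`. -/
noncomputable def W2 (H : ℕ → ℝ → ℝ) (x : ℝ) : ℝ := 2 * (H 1 x ^ 2 + H 0 x * H 2 x)

/-- `(h²)'''`. -/
noncomputable def W3 (H : ℕ → ℝ → ℝ) (x : ℝ) : ℝ := 2 * (3 * (H 1 x * H 2 x) + H 0 x * H 3 x)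

theorem der_W0 (hH : Jet H) (x : ℝ) : HasDerivAt (fun x => H 0 x ^ 2) (W1 H x) x := by
  refine ((hH.der 0 x).pow 2).congr_deriv ?_
  unfold W1
  simp only [zero_add, Nat.cast_ofNat, Nat.add_one_sub_one, pow_one]
  ring

theorem der_W1 (hH : Jet H) (x : ℝ) : HasDerivAt (W1 H) (W2 H x) x := by
  refine (((hH.der 0 x).mul (hH.der 1 x)).const_mul 2).congr_deriv ?_
  unfold W2
  simp only [zero_add, Nat.reduceAdd]
  ring

theorem der_W2 (hH : Jet H) (x : ℝ) : HasDerivAt (W2 H) (W3 H x) x := by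
  refine ((((hH.der 1 x).pow 2).add ((hH.der 0 x).mul (hH.der 2 x))).const_mul 2).congr_deriv ?_
  unfold W3
  simp only [zero_add, Nat.reduceAdd, Nat.cast_ofNat, Nat.add_one_sub_one, pow_one]
  ring

theorem nnx_eq (x y : ℝ) (hs : sin (y - x) ≠ 0) :
    nnx H x y = (H 0 y ^ 2 - H 0 x ^ 2) * cs (y - x) ^ 2 - W1 H x * cu (y - x) - W2 H x / 2 := by
  have h1 := cs_sq hs
  unfold nnx sp W1 W2
  linear_combination H 0 x ^ 2 * h1

theorem Rig.loc (T : Rig H Φ P Q R M) (x : ℝ) : ∀ y ∈ Ioo x (Φ 1 x),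
    H 0 y ^ 2 = H 0 x ^ 2 + W2 H x / 2 * sin (y - x) ^ 2 + W1 H x * (sin (y - x) * cos (y - x)) := by
  intro y hy
  have F := T.fam
  have hcont : ContinuousOn (fun c => Φ c x) (Icc 0 1) :=
    fun c _ => (F.dc c x).continuousAt.continuousWithinAt
  have hmem : y ∈ Ioo (Φ 0 x) (Φ 1 x) := by
    rw [T.zero]
    exact hy
  obtain ⟨c, hc, hcy⟩ := intermediate_value_Ioo zero_le_one hcont hmem
  have hcy' : Φ c x = y := hcy
  have h1 := (T.partials hc x).1
  have hs := ((F.leaf c ⟨hc.1, hc.2.le⟩).sin_pos x).ne'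
  rw [hcy'] at h1 hs
  rw [nnx_eq x y hs] at h1
  unfold cs cu at h1
  field_simp at h1
  linear_combination h1 / 2

theorem Rig.ode (T : Rig H Φ P Q R M) (y : ℝ) : W3 H y = -(2 ^ 2 * W1 H y) := by
  have F := T.fam
  have hcont : Continuous (Φ 1) := (F.leaf 1 ⟨one_pos, le_rfl⟩).contφ
  have hgt := (F.leaf 1 ⟨one_pos, le_rfl⟩).gt y
  have h1 : ∀ᶠ x in 𝓝[<] y, y < Φ 1 x :=
    (hcont.tendsto y).mono_left nhdsWithin_le_nhds |>.eventually (lt_mem_nhds hgt)
  obtain ⟨x, hx1, hx2⟩ := (h1.and self_mem_nhdsWithin).exists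
  have hy : y ∈ Ioo x (Φ 1 x) := ⟨hx2, hx1⟩
  have hsub : ∀ y : ℝ, HasDerivAt (fun y => y - x) 1 y := fun y => (hasDerivAt_id y).sub_const x
  have s0 := step (T.loc x) (der_W0 F.jet) (g' := fun y =>
    W2 H x * (sin (y - x) * cos (y - x)) + W1 H x * (cos (y - x) ^ 2 - sin (y - x) ^ 2))
    (fun y => by
      refine (((((hsub y).sin.pow 2).const_mul (W2 H x / 2)).const_add (H 0 x ^ 2)).add
        (((hsub y).sin.mul (hsub y).cos).const_mul (W1 H x))).congr_deriv ?_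
      simp only [Nat.cast_ofNat, Nat.add_one_sub_one, pow_one]
      ring)
  have s1 := step s0 (der_W1 F.jet) (g' := fun y =>
    W2 H x * (cos (y - x) ^ 2 - sin (y - x) ^ 2) - 4 * W1 H x * (sin (y - x) * cos (y - x)))
    (fun y => by
      refine ((((hsub y).sin.mul (hsub y).cos).const_mul (W2 H x)).add
        ((((hsub y).cos.pow 2).sub ((hsub y).sin.pow 2)).const_mul (W1 H x))).congr_deriv ?_
      simp only [Nat.cast_ofNat, Nat.add_one_sub_one, pow_one]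
      ring)
  have s2 := step s1 (der_W2 F.jet) (g' := fun y =>
    -(4 * W2 H x * (sin (y - x) * cos (y - x))) - 4 * W1 H x * (cos (y - x) ^ 2 - sin (y - x) ^ 2))
    (fun y => by
      refine (((((hsub y).cos.pow 2).sub ((hsub y).sin.pow 2)).const_mul (W2 H x)).sub
        (((hsub y).sin.mul (hsub y).cos).const_mul (4 * W1 H x))).congr_deriv ?_
      simp only [Nat.cast_ofNat, Nat.add_one_sub_one, pow_one]
      ring)
  have e0 := s0 y hy
  have e2 := s2 y hy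
  rw [e2, e0]
  ring

/-- The square of the support function is a quadratic form of the normal. -/
theorem Rig.form (T : Rig H Φ P Q R M) (x : ℝ) :
    H 0 x ^ 2 = H 0 0 ^ 2 * cos x ^ 2 + 2 * (W1 H 0 / 2) * (sin x * cos x)
      + (H 0 0 ^ 2 + W2 H 0 / 2) * sin x ^ 2 := by
  have F := T.fam
  have h1 := harmonic (k := 2) two_ne_zero (der_W1 F.jet)
    (fun x => (T.ode x) ▸ der_W2 F.jet x)
  have e : ∀ x, HasDerivAt (fun x => H 0 x ^ 2 - (H 0 0 ^ 2 * cos x ^ 2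
      + 2 * (W1 H 0 / 2) * (sin x * cos x) + (H 0 0 ^ 2 + W2 H 0 / 2) * sin x ^ 2)) 0 x := by
    intro x
    refine ((der_W0 F.jet x).sub (((((hasDerivAt_cos x).pow 2).const_mul (H 0 0 ^ 2)).add
      (((hasDerivAt_sin x).mul (hasDerivAt_cos x)).const_mul (2 * (W1 H 0 / 2)))).add
      (((hasDerivAt_sin x).pow 2).const_mul (H 0 0 ^ 2 + W2 H 0 / 2)))).congr_deriv ?_
    rw [h1 x, cos_two_mul, sin_two_mul]
    simp only [Nat.cast_ofNat, Nat.add_one_sub_one, pow_one]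
    linear_combination (W1 H 0) * sin_sq_add_cos_sq x
  have c1 := is_const_of_deriv_eq_zero (fun x => (e x).differentiableAt)
    (fun x => (e x).deriv) x 0
  simp only [cos_zero, sin_zero] at c1
  linear_combination c1

theorem Rig.form1 (T : Rig H Φ P Q R M) (x : ℝ) :
    H 0 x * H 1 x = (W1 H 0 / 2) * (cos x ^ 2 - sin x ^ 2) + (W2 H 0 / 2) * (sin x * cos x) := by
  have F := T.fam
  have h1 := harmonic (k := 2) two_ne_zero (der_W1 F.jet)
    (fun x => (T.ode x) ▸ der_W2 F.jet x) x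
  rw [cos_two_mul, sin_two_mul] at h1
  have h2 : W1 H x = 2 * (H 0 x * H 1 x) := rfl
  linear_combination (-1 / 2) * h2 + (1 / 2) * h1 + (W1 H 0 / 2) * sin_sq_add_cos_sq x

end Pool.Agent.R279.OB
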