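import Pool.Agent.R279.OB.Defs
import Pool.Agent.R279.OB.Ode

/-!
# From an outer billiard foliation to the analytic data
-/

namespace Pool.Agent.R279.OB

open Real Set MeasureTheory Filter Topology
open Pool.Agent.R279.PC (Jet der_H der_sub dom slice Qd Pd Rd d_c d_x d_Pc d_Qx smQ smP smR tot_Φ)
open scoped ContDiff

variable {h : ℝ → ℝ} {Φ : ℝ → ℝ → ℝ}

section fol

variable (F : InvFoliation h Φ)

include F

theorem P_pos {c : ℝ} (hc : c ∈ Icc (0 : ℝ) 1) (x : ℝ) : 0 < Pd Φ c x := by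
  have h := F.deriv_angle c hc x
  rwa [(d_x F.smooth c x).deriv] at h

theorem Q_pos {c : ℝ} (hc : c ∈ Icc (0 : ℝ) 1) (x : ℝ) : 0 < Qd Φ c x := by
  have h := F.deriv_param c hc x
  rwa [(d_c F.smooth c x).deriv] at h

theorem Q_per {c : ℝ} (hc : c ∈ Icc (0 : ℝ) 1) (x : ℝ) : Qd Φ c (x + 2 * π) = Qd Φ c x := by
  have h1 := (d_c F.smooth c (x + 2 * π)).hasDerivWithinAt (s := Icc (0 : ℝ) 1)
  have h2 := ((d_c F.smooth c x).add_const (2 * π)).hasDerivWithinAt (s := Icc (0 : ℝ) 1)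
  have h3 : HasDerivWithinAt (fun c => Φ c (x + 2 * π)) (Qd Φ c x) (Icc 0 1) c :=
    h2.congr (fun t ht => F.per t ht x) (F.per c hc x)
  exact (uniqueDiffOn_Icc (zero_lt_one (α := ℝ)) c hc).eq_deriv _ h1 h3

theorem P_per {c : ℝ} (hc : c ∈ Icc (0 : ℝ) 1) (x : ℝ) : Pd Φ c (x + 2 * π) = Pd Φ c x := by
  have h1 : HasDerivAt (fun x => Φ c (x + 2 * π)) (Pd Φ c (x + 2 * π)) x :=
    (d_x F.smooth c (x + 2 * π)).comp_add_const x (2 * π)
  have h2 : (fun x => Φ c (x + 2 * π)) = fun x => Φ c x + 2 * π := funext (F.per c hc)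
  rw [h2] at h1
  exact h1.unique ((d_x F.smooth c x).add_const _)

theorem exists_bounds : ∃ m M : ℝ, 0 < m ∧ 0 < M ∧ ∀ c ∈ Icc (0 : ℝ) 1, ∀ x,
    m ≤ Qd Φ c x ∧ Qd Φ c x ≤ M ∧ |Pd Φ c x| ≤ M := by
  have hK : IsCompact (Icc (0 : ℝ) 1 ×ˢ Icc (0 : ℝ) (2 * π)) := isCompact_Icc.prod isCompact_Icc
  have hne : (Icc (0 : ℝ) 1 ×ˢ Icc (0 : ℝ) (2 * π)).Nonempty :=
    ⟨(0, 0), ⟨le_rfl, zero_le_one⟩, ⟨le_rfl, two_pi_pos.le⟩⟩
  obtain ⟨p, hp, hpm⟩ := hK.exists_isMinOn hne (smQ F.smooth).continuous.continuousOn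
  obtain ⟨M1, hM1⟩ := hK.exists_bound_of_continuousOn (smQ F.smooth).continuous.continuousOn
  obtain ⟨M2, hM2⟩ := hK.exists_bound_of_continuousOn (smP F.smooth).continuous.continuousOn
  have hm0 : 0 < Qd Φ p.1 p.2 := Q_pos F hp.1 p.2
  refine ⟨Qd Φ p.1 p.2, max M1 M2 ⊔ 1, hm0, lt_of_lt_of_le one_pos (le_max_right _ _),
    fun c hc x => ?_⟩
  have hQ : Function.Periodic (Qd Φ c) (2 * π) := Q_per F hc
  have hR : Function.Periodic (Pd Φ c) (2 * π) := P_per F hc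
  obtain ⟨y, hy, hxy⟩ := hQ.exists_mem_Ico₀ two_pi_pos x
  obtain ⟨z, hz, hxz⟩ := hR.exists_mem_Ico₀ two_pi_pos x
  refine ⟨?_, ?_, ?_⟩
  · rw [hxy]
    exact hpm (show (c, y) ∈ _ from ⟨hc, hy.1, hy.2.le⟩)
  · rw [hxy]
    have := hM1 (c, y) ⟨hc, hy.1, hy.2.le⟩
    exact (le_abs_self _).trans (this.trans ((le_max_left _ _).trans (le_max_left _ _)))
  · rw [hxz]
    have := hM2 (c, z) ⟨hc, hz.1, hz.2.le⟩
    exact this.trans ((le_max_right _ _).trans (le_max_left _ _))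

theorem exists_bd : ∃ m M : ℝ, 0 < m ∧ 0 < M ∧ ∀ c ∈ Ioc (0 : ℝ) 1, ∀ x,
    m * c ≤ Φ c x - x ∧ Φ c x - x ≤ M * c ∧ |Pd Φ c x| ≤ M := by
  obtain ⟨m, M, hm, hM, hb⟩ := exists_bounds F
  refine ⟨m, M, hm, hM, fun c hc x => ?_⟩
  obtain ⟨t, ht, h1⟩ := exists_hasDerivAt_eq_slope (fun c => Φ c x) (fun c => Qd Φ c x) hc.1
    (fun c _ => (d_c F.smooth c x).continuousAt.continuousWithinAt)
    (fun c _ => d_c F.smooth c x)
  have ht' : t ∈ Icc (0 : ℝ) 1 := ⟨ht.1.le, (ht.2.trans_le hc.2).le⟩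
  have hc0 := hc.1
  simp only [F.zero, sub_zero] at h1
  rw [eq_div_iff hc0.ne'] at h1
  rw [← h1]
  exact ⟨mul_le_mul_of_nonneg_right (hb t ht' x).1 hc0.le,
    mul_le_mul_of_nonneg_right (hb t ht' x).2.1 hc0.le, (hb c ⟨hc.1.le, hc.2⟩ x).2.2⟩

theorem gt_self {c : ℝ} (hc : c ∈ Ioc (0 : ℝ) 1) (x : ℝ) : x < Φ c x := by
  obtain ⟨m, M, hm, hM, hb⟩ := exists_bd F
  have h1 := (hb c hc x).1
  have h2 : 0 < m * c := mul_pos hm hc.1
  linarith

theorem mono_c {c c' : ℝ} (hc : c ∈ Icc (0 : ℝ) 1) (hc' : c' ∈ Icc (0 : ℝ) 1) (h : c ≤ c')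
    (x : ℝ) : Φ c x ≤ Φ c' x := by
  have h1 : MonotoneOn (fun c => Φ c x) (Icc 0 1) := by
    refine monotoneOn_of_deriv_nonneg (convex_Icc 0 1)
      (fun c _ => (d_c F.smooth c x).continuousAt.continuousWithinAt)
      (fun c _ => (d_c F.smooth c x).differentiableAt.differentiableWithinAt) ?_
    intro t ht
    rw [interior_Icc] at ht
    exact (F.deriv_param t ⟨ht.1.le, ht.2.le⟩ x).le
  exact h1 hc hc' h

theorem sin_pos_leaf {c : ℝ} (hc : c ∈ Ioc (0 : ℝ) 1) (x : ℝ) : 0 < sin (Φ c x - x) :=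
  sin_pos' (gt_self F hc x) (F.lt_pi c hc x)

end fol

/-- The derivatives of the support function. -/
noncomputable def Hh (h : ℝ → ℝ) (k : ℕ) : ℝ → ℝ := iteratedDeriv k h

theorem Hh_zero (h : ℝ → ℝ) : Hh h 0 = h := iteratedDeriv_zero

theorem Hh_one (h : ℝ → ℝ) : Hh h 1 = deriv h := iteratedDeriv_one

theorem Hh_two (h : ℝ → ℝ) : Hh h 2 = deriv (deriv h) := by
  unfold Hh
  rw [iteratedDeriv_succ, iteratedDeriv_one]

theorem jetH (hh : ContDiff ℝ ∞ h) (hp : ∀ θ, h (θ + 2 * π) = h θ) : Jet (Hh h) where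
  der k x := by
    have h1 := hh.differentiable_iteratedDeriv k (by exact_mod_cast ENat.coe_lt_top k)
    have h2 : Hh h (k + 1) x = deriv (Hh h k) x := by
      unfold Hh
      rw [iteratedDeriv_succ]
    rw [h2]
    exact (h1 x).hasDerivAt
  per0 x := by rw [Hh_zero, hp]

/-- The intersection point in terms of the first tangency point. -/
theorem pt_left {x y : ℝ} (hs : sin (y - x) ≠ 0) :
    pt h x y = (h x * cos x - (deriv h x + sp (Hh h) x y) * sin x,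
      h x * sin x + (deriv h x + sp (Hh h) x y) * cos x) := by
  have e1 : sin (y - x) * cos x + cos (y - x) * sin x = sin y := by
    rw [← sin_add]
    congr 1
    ring
  have e2 : cos (y - x) * cos x - sin (y - x) * sin x = cos y := by
    rw [← cos_add]
    congr 1
    ring
  unfold pt sp cs cu
  rw [Hh_zero, Hh_one, Prod.ext_iff]
  constructor
  · simp only
    field_simp
    linear_combination (-h x) * e1
  · simp only
    field_simp
    linear_combination h x * e2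

/-- The intersection point in terms of the second tangency point. -/
theorem pt_right {x y : ℝ} (hs : sin (y - x) ≠ 0) :
    pt h x y = (h y * cos y - (deriv h y - sm (Hh h) x y) * sin y,
      h y * sin y + (deriv h y - sm (Hh h) x y) * cos y) := by
  have e1 : sin y * cos (y - x) - cos y * sin (y - x) = sin x := by
    rw [← sin_sub]
    congr 1
    ring
  have e2 : cos y * cos (y - x) + sin y * sin (y - x) = cos x := by
    rw [← cos_sub]
    congr 1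
    ring
  unfold pt sm cs cu
  rw [Hh_zero, Hh_one, Prod.ext_iff]
  constructor
  · simp only
    field_simp
    linear_combination h y * e1
  · simp only
    field_simp
    linear_combination (-h y) * e2

/-- The reflection law. -/
theorem el_eq (F : InvFoliation h Φ) {c : ℝ} (hc : c ∈ Ioc (0 : ℝ) 1) (x : ℝ) :
    sp (Hh h) (Φ c x) (Φ c (Φ c x)) = sm (Hh h) x (Φ c x) := by
  have h1 := F.refl c hc x
  rw [pt_right (sin_pos_leaf F hc x).ne', pt_left (sin_pos_leaf F hc (Φ c x)).ne', gam,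
    Prod.ext_iff] at h1
  simp only [Prod.fst_add, Prod.snd_add, Prod.smul_fst, Prod.smul_snd, smul_eq_mul] at h1
  obtain ⟨e1, e2⟩ := h1
  have := sin_sq_add_cos_sq (Φ c x)
  linear_combination (-sin (Φ c x)) * e1 + cos (Φ c x) * e2
    - (sp (Hh h) (Φ c x) (Φ c (Φ c x)) - sm (Hh h) x (Φ c x)) * this

theorem famH (F : InvFoliation h Φ) : Fam (Hh h) Φ (Pd Φ) (Qd Φ) (Rd Φ) where
  tot := tot_Φ F.smooth
  dPc := d_Pc F.smooth
  dQx := d_Qx F.smooth
  cP := (smP F.smooth).continuous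
  cQ := (smQ F.smooth).continuous
  cR := (smR F.smooth).continuous
  jet := jetH F.smooth_h F.per_h
  conv := fun x => by
    rw [Hh_zero, Hh_two]
    exact F.curv x
  leaf c hc :=
    { der := d_x F.smooth c
      cont := (smP F.smooth).continuous.comp (Continuous.prodMk_right c)
      pos := P_pos F ⟨hc.1.le, hc.2⟩
      per := F.per c ⟨hc.1.le, hc.2⟩
      gt := gt_self F hc
      lt := F.lt_pi c hc
      el := el_eq F hc }
  Qpos c hc := Q_pos F ⟨hc.1.le, hc.2⟩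
  Qper c hc := Q_per F ⟨hc.1.le, hc.2⟩

/-- In the centrally symmetric case, on the outer leaf. -/
theorem outer_leaf (F : InvFoliation h Φ) (ho : ParallelogramLeaf Φ) (hsym : ∀ x, h (x + π) = h x) (x : ℝ) :
    sp (Hh h) x (Φ 1 x) = h (Φ 1 x) / sin (Φ 1 x - x) ∧
      sm (Hh h) x (Φ 1 x) = h x / sin (Φ 1 x - x) := by
  have h1m : (1 : ℝ) ∈ Ioc (0 : ℝ) 1 := ⟨one_pos, le_rfl⟩
  have hs := (sin_pos_leaf F h1m x).ne'
  have e1 := el_eq F h1m x
  have e2 := el_eq F h1m (Φ 1 x)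
  rw [ho x] at e1 e2
  have hz : Φ 1 (x + π) = Φ 1 x + π := by rw [← ho x, ho (Φ 1 x)]
  have hd : deriv h (x + π) = deriv h x := by
    have h1 := (F.smooth_h.differentiable (by simp) (x + π)).hasDerivAt.comp_add_const x π
    have h2 : (fun x => h (x + π)) = h := funext hsym
    rw [h2] at h1
    exact h1.deriv.symm
  have s1 : sin (x + π - Φ 1 x) = sin (Φ 1 x - x) := by
    rw [show x + π - Φ 1 x = π - (Φ 1 x - x) by ring, sin_pi_sub]
  have s2 : cos (x + π - Φ 1 x) = -cos (Φ 1 x - x) := by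
    rw [show x + π - Φ 1 x = π - (Φ 1 x - x) by ring, cos_pi_sub]
  have s3 : Φ 1 x + π - (x + π) = Φ 1 x - x := by ring
  rw [hz] at e2
  unfold sp sm cs cu at *
  rw [Hh_zero, Hh_one, s1, s2] at e1 e2
  rw [s3, hsym, hsym, hd] at e2
  rw [hsym] at e1
  rw [Hh_zero, Hh_one]
  constructor
  · field_simp at e2 ⊢
    linear_combination (1 / 2) * e2
  · field_simp at e1 ⊢
    linear_combination (-1 / 2) * e1

theorem exists_rig (F : InvFoliation h Φ) (ho : ParallelogramLeaf Φ)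
    (hsym : ∀ x, h (x + π) = h x) :
    ∃ M : ℝ, Rig (Hh h) Φ (Pd Φ) (Qd Φ) (Rd Φ) M := by
  obtain ⟨m, M, hm, hM, hb⟩ := exists_bd F
  refine ⟨M, famH F, hM, fun c hc x => ⟨(hb c hc x).2.1, (hb c hc x).2.2⟩, fun x => ?_, F.zero⟩
  obtain ⟨e1, e2⟩ := outer_leaf F ho hsym x
  unfold nn
  rw [e1, e2, Hh_zero]
  ring

theorem h_pos (F : InvFoliation h Φ) (ho : ParallelogramLeaf Φ) (hsym : ∀ x, h (x + π) = h x) (x : ℝ) : 0 < h x := by
  have h1m : (1 : ℝ) ∈ Ioc (0 : ℝ) 1 := ⟨one_pos, le_rfl⟩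
  obtain ⟨e1, e2⟩ := outer_leaf F ho hsym x
  have h1 := sm_pos (famH F).jet (famH F).conv (gt_self F h1m x) (F.lt_pi 1 h1m x)
  rw [e2] at h1
  exact (div_pos_iff_of_pos_right (sin_pos_leaf F h1m x)).1 h1

end Pool.Agent.R279.OB
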