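import Pool.Agent.R279.OB.Build

/-!
# The curve is centrally symmetric
-/

namespace Pool.Agent.R279.OB

open Real Set MeasureTheory Filter Topology
open Pool.Agent.R279.PC (Jet der_H der_sub Pd d_x harmonic)
open scoped ContDiff

variable {h : ℝ → ℝ} {Φ : ℝ → ℝ → ℝ}

/-- The four reflection laws at the sides of a parallelogram. -/
theorem four (F : InvFoliation h Φ) (ho : ParallelogramLeaf Φ) (x : ℝ) :
    2 * deriv h (Φ 1 x) * sin (Φ 1 x - x) = h (x + π) - h x + 2 * h (Φ 1 x) * cos (Φ 1 x - x) ∧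
    2 * deriv h (x + π) * sin (Φ 1 x - x)
      = h (Φ 1 x + π) - h (Φ 1 x) - 2 * h (x + π) * cos (Φ 1 x - x) := by
  have h1m : (1 : ℝ) ∈ Ioc (0 : ℝ) 1 := ⟨one_pos, le_rfl⟩
  have hs := (sin_pos_leaf F h1m x).ne'
  have e1 := el_eq F h1m x
  have e2 := el_eq F h1m (Φ 1 x)
  rw [ho x] at e1 e2
  have hz : Φ 1 (x + π) = Φ 1 x + π := by rw [← ho x, ho (Φ 1 x)]
  have s1 : sin (x + π - Φ 1 x) = sin (Φ 1 x - x) := by
    rw [show x + π - Φ 1 x = π - (Φ 1 x - x) by ring, sin_pi_sub]
  have s2 : cos (x + π - Φ 1 x) = -cos (Φ 1 x - x) := by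
    rw [show x + π - Φ 1 x = π - (Φ 1 x - x) by ring, cos_pi_sub]
  have s3 : Φ 1 x + π - (x + π) = Φ 1 x - x := by ring
  rw [hz] at e2
  unfold sp sm cs cu at *
  rw [Hh_zero, Hh_one, s1, s2] at e1 e2
  rw [s3] at e2
  constructor
  · field_simp at e1
    linear_combination -e1
  · field_simp at e2
    linear_combination -e2

theorem four' (F : InvFoliation h Φ) (x : ℝ) :
    deriv h (x + 2 * π) = deriv h x := by
  have h1 := (F.smooth_h.differentiable (by simp) (x + 2 * π)).hasDerivAt.comp_add_const x (2 * π)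
  have h2 : (fun x => h (x + 2 * π)) = h := funext F.per_h
  rw [h2] at h1
  exact h1.deriv.symm

/-- The equations for the odd part. -/
theorem odd_eq (F : InvFoliation h Φ) (ho : ParallelogramLeaf Φ) (x : ℝ) :
    (deriv h (Φ 1 x) - deriv h (Φ 1 x + π)) * sin (Φ 1 x - x)
      = (h (Φ 1 x) - h (Φ 1 x + π)) * cos (Φ 1 x - x) - (h x - h (x + π)) ∧
    (deriv h x - deriv h (x + π)) * sin (Φ 1 x - x)
      = (h (Φ 1 x) - h (Φ 1 x + π)) - (h x - h (x + π)) * cos (Φ 1 x - x) := by
  have hz : Φ 1 (x + π) = Φ 1 x + π := by rw [← ho x, ho (Φ 1 x)]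
  obtain ⟨e1, e2⟩ := four F ho x
  obtain ⟨e3, e4⟩ := four F ho (x + π)
  rw [hz] at e3 e4
  have s3 : Φ 1 x + π - (x + π) = Φ 1 x - x := by ring
  have s4 : x + π + π = x + 2 * π := by ring
  have s5 : Φ 1 x + π + π = Φ 1 x + 2 * π := by ring
  rw [s3, s4, F.per_h] at e3 e4
  rw [s5, F.per_h, four' F] at e4
  constructor
  · linear_combination (1 / 2) * e1 - (1 / 2) * e3
  · linear_combination (1 / 2) * e4 - (1 / 2) * e2

theorem centre (F : InvFoliation h Φ) (ho : ParallelogramLeaf Φ) :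
    ∃ o : ℝ × ℝ, ∀ x, h x - h (x + π) = 2 * (o.1 * cos x + o.2 * sin x) := by
  have h1m : (1 : ℝ) ∈ Ioc (0 : ℝ) 1 := ⟨one_pos, le_rfl⟩
  have hd : ContDiff ℝ ∞ (deriv h) := (contDiff_infty_iff_deriv.1 F.smooth_h).2
  have d1 : ∀ x, HasDerivAt h (deriv h x) x := fun x =>
    (F.smooth_h.differentiable (by simp) x).hasDerivAt
  have d2 : ∀ x, HasDerivAt (deriv h) (deriv (deriv h) x) x := fun x =>
    (hd.differentiable (by simp) x).hasDerivAt
  have D0 : ∀ x, HasDerivAt (fun x => h x - h (x + π)) (deriv h x - deriv h (x + π)) x :=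
    fun x => (d1 x).sub ((d1 (x + π)).comp_add_const x π)
  have D1 : ∀ x, HasDerivAt (fun x => deriv h x - deriv h (x + π))
      (deriv (deriv h) x - deriv (deriv h) (x + π)) x :=
    fun x => (d2 x).sub ((d2 (x + π)).comp_add_const x π)
  have key : ∀ x, deriv (deriv h) x - deriv (deriv h) (x + π) = -(1 ^ 2 * (h x - h (x + π))) := by
    intro x
    have hs := (sin_pos_leaf F h1m x).ne'
    have hy := d_x F.smooth 1 x
    have hu : HasDerivAt (fun t => Φ 1 t - t) (Pd Φ 1 x - 1) x := der_sub (hasDerivAt_id x) hy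
    have eL := (D1 x).mul hu.sin
    have eR := ((D0 (Φ 1 x)).comp x hy).sub ((D0 x).mul hu.cos)
    have hfun : ((fun x => deriv h x - deriv h (x + π)) * fun x => sin (Φ 1 x - x))
        = ((fun x => h x - h (x + π)) ∘ Φ 1) - (fun x => h x - h (x + π)) *
          fun x => cos (Φ 1 x - x) := by
      funext t
      exact (odd_eq F ho t).2
    rw [hfun] at eL
    have e := eL.unique eR
    obtain ⟨o1, o2⟩ := odd_eq F ho x
    have tr := sin_sq_add_cos_sq (Φ 1 x - x)
    set S := sin (Φ 1 x - x)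
    set C := cos (Φ 1 x - x)
    set E0 := h x - h (x + π)
    set E1 := deriv h x - deriv h (x + π)
    set G0 := h (Φ 1 x) - h (Φ 1 x + π)
    set G1 := deriv h (Φ 1 x) - deriv h (Φ 1 x + π)
    have e3 : G1 = E1 * C - E0 * S := by
      apply mul_right_cancel₀ hs
      linear_combination o1 - C * o2 + E0 * tr
    have e4 : (deriv (deriv h) x - deriv (deriv h) (x + π) + E0) * S = 0 := by
      linear_combination e + Pd Φ 1 x * e3
    have e5 := (mul_eq_zero.1 e4).resolve_right hs
    linarith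
  refine ⟨((h 0 - h (0 + π)) / 2, (deriv h 0 - deriv h (0 + π)) / 2), fun x => ?_⟩
  have := harmonic (k := 1) one_ne_zero D0 (fun x => (key x) ▸ D1 x) x
  simp only [one_mul, div_one] at this
  rw [this]
  ring

/-- Translation of the origin. -/
noncomputable def tr (h : ℝ → ℝ) (o : ℝ × ℝ) (x : ℝ) : ℝ := h x - (o.1 * cos x + o.2 * sin x)

section tr

variable (hh : ContDiff ℝ ∞ h) (o : ℝ × ℝ)

include hh

theorem tr_smooth : ContDiff ℝ ∞ (tr h o) := by
  unfold tr
  fun_prop

theorem tr_deriv : deriv (tr h o) = fun x => deriv h x - (-o.1 * sin x + o.2 * cos x) := by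
  funext x
  have h1 := (hh.differentiable (by simp) x).hasDerivAt
  refine (h1.sub (((hasDerivAt_cos x).const_mul o.1).add
    ((hasDerivAt_sin x).const_mul o.2))).deriv.trans ?_
  ring

theorem tr_deriv2 (x : ℝ) :
    deriv (deriv (tr h o)) x = deriv (deriv h) x + (o.1 * cos x + o.2 * sin x) := by
  have hd : ContDiff ℝ ∞ (deriv h) := (contDiff_infty_iff_deriv.1 hh).2
  have h1 := (hd.differentiable (by simp) x).hasDerivAt
  rw [tr_deriv hh]
  refine (h1.sub (((hasDerivAt_sin x).const_mul (-o.1)).add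
    ((hasDerivAt_cos x).const_mul o.2))).deriv.trans ?_
  ring

theorem tr_gam (x : ℝ) : gam h x = gam (tr h o) x + o := by
  have t := sin_sq_add_cos_sq x
  unfold gam
  rw [tr_deriv hh]
  unfold tr
  rw [Prod.ext_iff]
  constructor
  · simp only [Prod.fst_add]
    linear_combination o.1 * t
  · simp only [Prod.snd_add]
    linear_combination o.2 * t

omit hh in
theorem tr_pt {x y : ℝ} (hs : sin (y - x) ≠ 0) : pt h x y = pt (tr h o) x y + o := by
  have e : sin (y - x) = sin y * cos x - cos y * sin x := sin_sub y x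
  unfold pt tr
  rw [Prod.ext_iff]
  constructor
  · simp only [Prod.fst_add]
    rw [div_add' _ _ _ hs, div_left_inj' hs]
    linear_combination (-o.1) * e
  · simp only [Prod.snd_add]
    rw [div_add' _ _ _ hs, div_left_inj' hs]
    linear_combination (-o.2) * e

end tr

theorem tr_fol (F : InvFoliation h Φ) (o : ℝ × ℝ) : InvFoliation (tr h o) Φ where
  smooth_h := tr_smooth F.smooth_h o
  per_h θ := by
    unfold tr
    rw [F.per_h, cos_add_two_pi, sin_add_two_pi]
  curv θ := by
    rw [tr_deriv2 F.smooth_h]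
    have := F.curv θ
    unfold tr
    linarith
  smooth := F.smooth
  zero := F.zero
  per := F.per
  deriv_angle := F.deriv_angle
  deriv_param := F.deriv_param
  lt_pi := F.lt_pi
  refl c hc w := by
    have h1 := F.refl c hc w
    rw [tr_pt o (sin_pos_leaf F hc w).ne', tr_pt o (sin_pos_leaf F hc (Φ c w)).ne',
      tr_gam F.smooth_h o] at h1
    rw [Prod.ext_iff] at h1 ⊢
    simp only [Prod.fst_add, Prod.snd_add, Prod.smul_fst, Prod.smul_snd, smul_eq_mul] at h1 ⊢
    exact ⟨by linear_combination h1.1, by linear_combination h1.2⟩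

end Pool.Agent.R279.OB
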