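import Mathlib

/-!
# Foliations by invariant curves of an outer billiard: definitions
-/

namespace Pool.Agent.R279.OB

open Real Set
open scoped ContDiff

/-- The point of tangency of the tangent line `ℓ_θ` with outer normal `(cos θ, sin θ)` of the
convex curve `γ` with support function `h`. -/
noncomputable def gam (h : ℝ → ℝ) (θ : ℝ) : ℝ × ℝ :=
  (h θ * cos θ - deriv h θ * sin θ, h θ * sin θ + deriv h θ * cos θ)

/-- The intersection point of the tangent lines `ℓ_x` and `ℓ_y` (for `sin (y - x) ≠ 0`). -/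
noncomputable def pt (h : ℝ → ℝ) (x y : ℝ) : ℝ × ℝ :=
  ((h x * sin y - h y * sin x) / sin (y - x), (h y * cos x - h x * cos y) / sin (y - x))

/-- The quadratic form `a X² + 2 b X Y + d Y²`. -/
def quad (a b d : ℝ) (p : ℝ × ℝ) : ℝ := a * p.1 ^ 2 + 2 * b * (p.1 * p.2) + d * p.2 ^ 2

/-- A smooth foliation by closed curves of the closed region between the strictly convex curve
`γ` with the smooth support function `h` and a closed curve around it, such that

* the leaves are `γ` (`c = 0`) and the closed curves `θ ↦ pt h θ (Φ c θ)`, `0 < c ≤ 1`: the leaf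
  `c` meets the tangent line `ℓ_θ` in the point `pt h θ (Φ c θ)` on one side of the point of
  tangency `gam h θ`, and in the point `pt h w θ`, where `Φ c w = θ`, on the other side;
* for every `θ` the involution `σ_θ` of `ℓ_θ` which exchanges these two points for every leaf is
  the reflection in the point of tangency; in other words, all leaves are invariant curves of the
  outer billiard map about `γ`. -/
structure InvFoliation (h : ℝ → ℝ) (Φ : ℝ → ℝ → ℝ) : Prop where
  /-- the support function is smooth -/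
  smooth_h : ContDiff ℝ ∞ h
  /-- the curve `γ` is closed -/
  per_h : ∀ θ, h (θ + 2 * π) = h θ
  /-- the radius of curvature of `γ` is positive -/
  curv : ∀ θ, 0 < h θ + deriv (deriv h) θ
  /-- the family is smooth -/
  smooth : ContDiff ℝ ∞ (fun p : ℝ × ℝ => Φ p.1 p.2)
  /-- the leaf `0` is `γ` -/
  zero : ∀ θ, Φ 0 θ = θ
  /-- the leaves are closed curves going once around `γ` -/
  per : ∀ c ∈ Icc (0 : ℝ) 1, ∀ θ, Φ c (θ + 2 * π) = Φ c θ + 2 * π
  /-- both tangency points of the tangents from a point of the leaf move in the same direction -/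
  deriv_angle : ∀ c ∈ Icc (0 : ℝ) 1, ∀ θ, 0 < deriv (Φ c) θ
  /-- the leaves form a foliation -/
  deriv_param : ∀ c ∈ Icc (0 : ℝ) 1, ∀ θ, 0 < deriv (fun c => Φ c θ) c
  /-- the points of the leaves lie in the affine plane, outside `γ` -/
  lt_pi : ∀ c ∈ Ioc (0 : ℝ) 1, ∀ θ, Φ c θ < θ + π
  /-- the points of a leaf on a tangent line are symmetric with respect to the point of tangency -/
  refl : ∀ c ∈ Ioc (0 : ℝ) 1, ∀ w,
    pt h w (Φ c w) + pt h (Φ c w) (Φ c (Φ c w)) = (2 : ℝ) • gam h (Φ c w)

/-- The outermost leaf `1` consists of the vertices of parallelograms circumscribed about `γ`: the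
tangent lines at `θ`, `Φ 1 θ`, `θ + π`, `Φ 1 θ + π` form a parallelogram with vertices on it. -/
def ParallelogramLeaf (Φ : ℝ → ℝ → ℝ) : Prop := ∀ θ, Φ 1 (Φ 1 θ) = θ + π

/-- All points of the outermost leaf `1` are periodic with period four for the outer billiard
map. -/
def FourPeriodicLeaf (Φ : ℝ → ℝ → ℝ) : Prop := ∀ θ, Φ 1 (Φ 1 (Φ 1 (Φ 1 θ))) = θ + 2 * π

/-- The curve `γ` has a centre of symmetry. -/
def CentrallySymmetric (h : ℝ → ℝ) : Prop :=
  ∃ o : ℝ × ℝ, ∀ θ, gam h θ + gam h (θ + π) = (2 : ℝ) • o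

/-- The line `ℓ_θ`. -/
def onLine (h : ℝ → ℝ) (θ : ℝ) (p : ℝ × ℝ) : Prop := p.1 * cos θ + p.2 * sin θ = h θ

/-- The meaning of `gam`: the point `gam h θ` lies on `ℓ_θ`. -/
theorem gam_onLine (h : ℝ → ℝ) (θ : ℝ) : onLine h θ (gam h θ) := by
  unfold onLine gam
  have := sin_sq_add_cos_sq θ
  linear_combination h θ * this

/-- The velocity of `gam h` is the radius of curvature times the direction of `ℓ_θ`. -/
theorem gam_deriv {h : ℝ → ℝ} (hh : ContDiff ℝ ∞ h) (θ : ℝ) :
    HasDerivAt (fun θ => (gam h θ).1) (-(h θ + deriv (deriv h) θ) * sin θ) θ ∧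
      HasDerivAt (fun θ => (gam h θ).2) ((h θ + deriv (deriv h) θ) * cos θ) θ := by
  have h1 : HasDerivAt h (deriv h θ) θ := (hh.differentiable (by simp) θ).hasDerivAt
  have hd : ContDiff ℝ ∞ (deriv h) := (contDiff_infty_iff_deriv.1 hh).2
  have h2 : HasDerivAt (deriv h) (deriv (deriv h) θ) θ := (hd.differentiable (by simp) θ).hasDerivAt
  constructor
  · refine ((h1.mul (hasDerivAt_cos θ)).sub (h2.mul (hasDerivAt_sin θ))).congr_deriv ?_
    ring
  · refine ((h1.mul (hasDerivAt_sin θ)).add (h2.mul (hasDerivAt_cos θ))).congr_deriv ?_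
    ring

/-- The meaning of `pt`: the point `pt h x y` is the only point on `ℓ_x` and `ℓ_y`. -/
theorem pt_iff {h : ℝ → ℝ} {x y : ℝ} (hs : sin (y - x) ≠ 0) (p : ℝ × ℝ) :
    (onLine h x p ∧ onLine h y p) ↔ p = pt h x y := by
  have e : sin (y - x) = sin y * cos x - cos y * sin x := sin_sub y x
  unfold onLine pt
  rw [Prod.ext_iff]
  simp only
  rw [eq_div_iff hs, eq_div_iff hs]
  constructor
  · rintro ⟨h1, h2⟩
    constructor
    · rw [e, ← h1, ← h2]
      ring
    · rw [e, ← h1, ← h2]
      ring
  · rintro ⟨h1, h2⟩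
    constructor
    · apply mul_left_cancel₀ hs
      have := sin_sq_add_cos_sq x
      linear_combination cos x * h1 + sin x * h2 - h x * e
    · apply mul_left_cancel₀ hs
      linear_combination cos y * h1 + sin y * h2 - h y * e

end Pool.Agent.R279.OB
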