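import Pool.Agent.R279.OB.Basic

/-!
# The family of leaves and the flux
-/

namespace Pool.Agent.R279.OB

open Real Set MeasureTheory Filter Topology
open Pool.Agent.R279.PC (Jet der_H der_sub dom slice)

variable {H : ℕ → ℝ → ℝ} {φ φ' : ℝ → ℝ}

/-- The coboundary function. -/
noncomputable def F1 (H : ℕ → ℝ → ℝ) (φ φ' : ℝ → ℝ) (x : ℝ) : ℝ :=
  -(H 0 x ^ 2 * (cu (φ x - x) - (H 0 x + H 2 x) / sp H x (φ x)
    + sm H x (φ x) * cs (φ x - x) * φ' x / sp H x (φ x))) - H 0 x * H 1 x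

theorem Leaf.contφ (L : Leaf H φ φ') : Continuous φ :=
  continuous_iff_continuousAt.2 fun x => (L.der x).continuousAt

theorem Leaf.sin_pos (L : Leaf H φ φ') (x : ℝ) : 0 < sin (φ x - x) := sin_pos' (L.gt x) (L.lt x)

theorem Leaf.cs_pos (L : Leaf H φ φ') (x : ℝ) : 0 < cs (φ x - x) := by
  have := L.sin_pos x
  unfold cs
  positivity

theorem Leaf.riccati (hH : Jet H) (L : Leaf H φ φ') (x : ℝ) :
    sm H x (φ x) * (cu (φ x - x) + cu (φ (φ x) - φ x))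
      + sm H (φ x) (φ (φ x)) * cs (φ (φ x) - φ x) * φ' (φ x)
      + sp H x (φ x) * cs (φ x - x) / φ' x = 2 * (H 0 (φ x) + H 2 (φ x)) := by
  have hy := L.der x
  have hz : HasDerivAt (fun x => φ (φ x)) (φ' (φ x) * φ' x) x := (L.der (φ x)).comp x hy
  have h1 := der_sp hH hy hz (L.sin_pos (φ x)).ne'
  have h2 := der_sm hH (hasDerivAt_id x) hy (L.sin_pos x).ne'
  have h3 : (fun x => sp H (φ x) (φ (φ x))) = fun x => sm H (id x) (φ x) := funext L.el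
  rw [h3] at h1
  have h4 := h1.unique h2
  have h5 := (L.pos x).ne'
  have h6 := L.el x
  simp only [id] at h4
  rw [h6] at h4
  field_simp
  linear_combination h4

theorem Leaf.hopf (hH : Jet H) (hc : Conv H) (L : Leaf H φ φ') (x : ℝ) :
    -(al H x (φ x) * nnx H x (φ x) + be H x (φ x) * nny H x (φ x))
      = (al H x (φ x) * φ' x - be H x (φ x)) ^ 2 / φ' x
        + sp H x (φ x) * sm H x (φ x) * cs (φ x - x) * (F1 H φ φ' x - F1 H φ φ' (φ x)) := by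
  have h1 := L.riccati hH x
  have h5 := (L.pos x).ne'
  have h6 := L.el x
  have p1 := (sp_pos hH hc (L.gt x) (L.lt x)).ne'
  have p2 := (sm_pos hH hc (L.gt x) (L.lt x)).ne'
  unfold F1
  rw [h6]
  have e1 : (H 0 (φ x) + H 2 (φ x)) / sm H x (φ x)
      = (sm H x (φ x) * (cu (φ x - x) + cu (φ (φ x) - φ x))
      + sm H (φ x) (φ (φ x)) * cs (φ (φ x) - φ x) * φ' (φ x)
      + sp H x (φ x) * cs (φ x - x) / φ' x) / (2 * sm H x (φ x)) := by
    rw [h1]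
    field_simp
  unfold al be nnx nny
  field_simp
  field_simp at h1
  linear_combination (-(H 0 (φ x) ^ 2 * cs (φ x - x) * sp H x (φ x))) * h1

/-- Substitution on a period. -/
theorem integral_comp_leaf (L : Leaf H φ φ') {F : ℝ → ℝ} (hF : Continuous F)
    (hp : ∀ x, F (x + 2 * π) = F x) :
    ∫ x in (0 : ℝ)..2 * π, F (φ x) * φ' x = ∫ x in (0 : ℝ)..2 * π, F x := by
  have h1 := intervalIntegral.integral_comp_mul_deriv (a := 0) (b := 2 * π) (f := φ) (f' := φ')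
    (g := F) (fun x _ => L.der x) L.cont.continuousOn hF
  have h2 : φ (2 * π) = φ 0 + 2 * π := by simpa using L.per 0
  have h3 : Function.Periodic F (2 * π) := hp
  have h4 := h3.intervalIntegral_add_eq (φ 0) 0
  rw [h2, h4, zero_add] at h1
  exact h1

/-- Invariance of a density. -/
theorem integral_invariant (L : Leaf H φ φ') {ρ F : ℝ → ℝ} (hF : Continuous F)
    (hρ : Continuous ρ) (hFp : ∀ x, F (x + 2 * π) = F x) (hρp : ∀ x, ρ (x + 2 * π) = ρ x)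
    (hinv : ∀ x, ρ (φ x) * φ' x = ρ x) :
    ∫ x in (0 : ℝ)..2 * π, ρ x * F (φ x) = ∫ x in (0 : ℝ)..2 * π, ρ x * F x := by
  rw [← integral_comp_leaf L (F := fun x => ρ x * F x) (hρ.mul hF)
    (fun x => by rw [hFp, hρp])]
  congr 1
  funext x
  rw [← hinv x]
  ring

/-- A smooth family of leaves `Φ c`, `0 < c ≤ 1`, with its first derivatives `P = ∂ Φ / ∂ x`,
`Q = ∂ Φ / ∂ c` and the mixed derivative `R`. -/
structure Fam (H : ℕ → ℝ → ℝ) (Φ P Q R : ℝ → ℝ → ℝ) : Prop where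
  tot : ∀ c x, HasFDerivAt (fun p : ℝ × ℝ => Φ p.1 p.2)
    (Q c x • ContinuousLinearMap.fst ℝ ℝ ℝ + P c x • ContinuousLinearMap.snd ℝ ℝ ℝ) (c, x)
  dPc : ∀ c x, HasDerivAt (fun c => P c x) (R c x) c
  dQx : ∀ c x, HasDerivAt (Q c) (R c x) x
  cP : Continuous (fun p : ℝ × ℝ => P p.1 p.2)
  cQ : Continuous (fun p : ℝ × ℝ => Q p.1 p.2)
  cR : Continuous (fun p : ℝ × ℝ => R p.1 p.2)
  jet : Jet H
  conv : Conv H
  leaf : ∀ c ∈ Ioc (0 : ℝ) 1, Leaf H (Φ c) (P c)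
  Qpos : ∀ c ∈ Ioc (0 : ℝ) 1, ∀ x, 0 < Q c x
  Qper : ∀ c ∈ Ioc (0 : ℝ) 1, ∀ x, Q c (x + 2 * π) = Q c x

variable {Φ P Q R : ℝ → ℝ → ℝ}

theorem Fam.cΦ (F : Fam H Φ P Q R) : Continuous (fun p : ℝ × ℝ => Φ p.1 p.2) :=
  continuous_iff_continuousAt.2 fun p => (F.tot p.1 p.2).continuousAt

theorem Fam.chain (F : Fam H Φ P Q R) {X Y : ℝ → ℝ} {X' Y' t : ℝ} (hX : HasDerivAt X X' t)
    (hY : HasDerivAt Y Y' t) :
    HasDerivAt (fun t => Φ (X t) (Y t)) (Q (X t) (Y t) * X' + P (X t) (Y t) * Y') t := by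
  have h := HasFDerivAt.comp_hasDerivAt (l := fun p : ℝ × ℝ => Φ p.1 p.2)
    (f := fun t => (X t, Y t)) t (F.tot (X t) (Y t)) (hX.prodMk hY)
  have h2 : (fun p : ℝ × ℝ => Φ p.1 p.2) ∘ (fun t => (X t, Y t)) = fun t => Φ (X t) (Y t) := rfl
  rw [h2] at h
  refine h.congr_deriv ?_
  simp

theorem Fam.dx (F : Fam H Φ P Q R) (c x : ℝ) : HasDerivAt (Φ c) (P c x) x := by
  simpa using F.chain (hasDerivAt_const x c) (hasDerivAt_id x)

theorem Fam.dc (F : Fam H Φ P Q R) (c x : ℝ) : HasDerivAt (fun c => Φ c x) (Q c x) c := by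
  simpa using F.chain (hasDerivAt_id c) (hasDerivAt_const c x)

/-- The density. -/
noncomputable def rho (H : ℕ → ℝ → ℝ) (Φ Q : ℝ → ℝ → ℝ) (c x : ℝ) : ℝ :=
  Q c x * (sp H x (Φ c x) * sm H x (Φ c x) * cs (Φ c x - x))

theorem Fam.invariant (F : Fam H Φ P Q R) {c : ℝ} (hc : c ∈ Ioo (0 : ℝ) 1) (x : ℝ) :
    rho H Φ Q c (Φ c x) * P c x = rho H Φ Q c x := by
  have hc' : c ∈ Ioc (0 : ℝ) 1 := ⟨hc.1, hc.2.le⟩
  have L := F.leaf c hc'
  have hy := F.dc c x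
  have hz := F.chain (hasDerivAt_id c) hy
  have h1 := der_sp F.jet hy hz (L.sin_pos (Φ c x)).ne'
  have h2 := der_sm F.jet (hasDerivAt_const c x) hy (L.sin_pos x).ne'
  have h3 : (fun c => sp H (Φ c x) (Φ (id c) (Φ c x))) =ᶠ[𝓝 c] fun c => sm H x (Φ c x) := by
    filter_upwards [Ioo_mem_nhds hc.1 hc.2] with t ht
    exact (F.leaf t ⟨ht.1, ht.2.le⟩).el x
  have h4 := h1.unique (h2.congr_of_eventuallyEq h3)
  have h5 := (L.pos x).ne'
  have h6 := L.riccati F.jet x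
  have h7 := L.el x
  simp only [id, mul_one, mul_zero, zero_add] at h4
  rw [h7] at h4
  unfold rho
  rw [h7]
  field_simp at h6
  linear_combination sm H x (Φ c x) * P c x * h4 - sm H x (Φ c x) * Q c x * h6

/-- The flux integrand. -/
noncomputable def flx (H : ℕ → ℝ → ℝ) (Φ P : ℝ → ℝ → ℝ) (c x : ℝ) : ℝ :=
  nn H x (Φ c x) * (al H x (Φ c x) * P c x - be H x (Φ c x))

/-- Its `c`-derivative. -/
noncomputable def flxC (H : ℕ → ℝ → ℝ) (Φ P Q R : ℝ → ℝ → ℝ) (c x : ℝ) : ℝ :=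
  nny H x (Φ c x) * Q c x * (al H x (Φ c x) * P c x - be H x (Φ c x))
    + nn H x (Φ c x) * (aly H x (Φ c x) * Q c x * P c x + al H x (Φ c x) * R c x
      - bey H x (Φ c x) * Q c x)

theorem Fam.dflx (F : Fam H Φ P Q R) {c : ℝ} (hc : c ∈ Ioc (0 : ℝ) 1) (x : ℝ) :
    HasDerivAt (fun c => flx H Φ P c x) (flxC H Φ P Q R c x) c := by
  have hs := ((F.leaf c hc).sin_pos x).ne'
  have hX := hasDerivAt_const c x
  have hY := F.dc c x
  have h := (der_nn F.jet hX hY hs).mul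
    (((der_al F.jet hX hY hs).mul (F.dPc c x)).sub (der_be F.jet hX hY hs))
  refine h.congr_deriv ?_
  unfold flxC
  simp only [Pi.mul_apply, Pi.sub_apply]
  ring

/-- The auxiliary function in the integration by parts. -/
noncomputable def aux (H : ℕ → ℝ → ℝ) (Φ Q : ℝ → ℝ → ℝ) (c x : ℝ) : ℝ :=
  -(nn H x (Φ c x) * (al H x (Φ c x) * Q c x))

/-- The nonnegative integrand. -/
noncomputable def pst (H : ℕ → ℝ → ℝ) (Φ P Q : ℝ → ℝ → ℝ) (c x : ℝ) : ℝ :=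
  Q c x * ((al H x (Φ c x) * P c x - be H x (Φ c x)) ^ 2 / P c x
    + 2 * cs (Φ c x - x) ^ 2 * nn H x (Φ c x) ^ 2)

theorem Fam.daux (F : Fam H Φ P Q R) {c : ℝ} (hc : c ∈ Ioc (0 : ℝ) 1) (x : ℝ) :
    HasDerivAt (aux H Φ Q c) (pst H Φ P Q c x + rho H Φ Q c x * F1 H (Φ c) (P c) x
      - rho H Φ Q c x * F1 H (Φ c) (P c) (Φ c x) - flxC H Φ P Q R c x) x := by
  have L := F.leaf c hc
  have hs := (L.sin_pos x).ne'
  have hX := hasDerivAt_id x
  have hY := F.dx c x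
  have h := ((der_nn F.jet hX hY hs).mul ((der_al F.jet hX hY hs).mul (F.dQx c x))).neg
  refine h.congr_deriv ?_
  have h1 := L.hopf F.jet F.conv x
  have h2 := div_id (H := H) x (Φ c x)
  unfold pst flxC rho
  simp only [Pi.mul_apply, id]
  linear_combination Q c x * h1 - Q c x * nn H x (Φ c x) * h2

end Pool.Agent.R279.OB
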