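import Pool.Agent.R279.OB.Centre

/-!
# A centrally symmetric curve with a leaf of four-periodic points
-/

namespace Pool.Agent.R279.OB

open Real Set MeasureTheory Filter Topology
open Pool.Agent.R279.PC (Jet der_H der_sub Pd Qd d_x d_c)
open scoped ContDiff

variable {h : ℝ → ℝ} {Φ : ℝ → ℝ → ℝ} {H : ℕ → ℝ → ℝ}

theorem sp_strictMono (hH : Jet H) (hc : Conv H) (y : ℝ) :
    StrictMonoOn (fun z => sp H y z) (Ioo y (y + π)) := by
  have hd : ∀ z ∈ Ioo y (y + π), HasDerivAt (fun z => sp H y z) (sm H y z * cs (z - y)) z := by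
    intro z hz
    have h1 := der_sp hH (hasDerivAt_const z y) (hasDerivAt_id z) (sin_pos' hz.1 hz.2).ne'
    simpa using h1
  refine strictMonoOn_of_deriv_pos (convex_Ioo _ _)
    (fun z hz => (hd z hz).continuousAt.continuousWithinAt) ?_
  intro z hz
  rw [interior_Ioo] at hz
  rw [(hd z hz).deriv]
  have h1 := sin_pos' hz.1 hz.2
  have h2 : 0 < cs (z - y) := by
    unfold cs
    positivity
  exact mul_pos (sm_pos hH hc hz.1 hz.2) h2

theorem deriv_sym (F : InvFoliation h Φ) (hsym : ∀ x, h (x + π) = h x) (x : ℝ) :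
    deriv h (x + π) = deriv h x := by
  have h1 := (F.smooth_h.differentiable (by simp) (x + π)).hasDerivAt.comp_add_const x π
  have h2 : (fun x => h (x + π)) = h := funext hsym
  rw [h2] at h1
  exact h1.deriv.symm

theorem sp_shift (F : InvFoliation h Φ) (hsym : ∀ x, h (x + π) = h x) (x y : ℝ) :
    sp (Hh h) (x + π) (y + π) = sp (Hh h) x y := by
  unfold sp
  rw [Hh_zero, Hh_one, hsym, hsym, deriv_sym F hsym, add_sub_add_right_eq_sub]

theorem sm_shift (F : InvFoliation h Φ) (hsym : ∀ x, h (x + π) = h x) (x y : ℝ) :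
    sm (Hh h) (x + π) (y + π) = sm (Hh h) x y := by
  unfold sm
  rw [Hh_zero, Hh_one, hsym, hsym, deriv_sym F hsym, add_sub_add_right_eq_sub]

theorem mono_x (F : InvFoliation h Φ) {c : ℝ} (hc : c ∈ Icc (0 : ℝ) 1) : StrictMono (Φ c) :=
  strictMono_of_deriv_pos (F.deriv_angle c hc)

theorem lt_one (F : InvFoliation h Φ) {c : ℝ} (hc : c ∈ Ico (0 : ℝ) 1) (x : ℝ) :
    Φ c x < Φ 1 x := by
  have h1 : StrictMonoOn (fun c => Φ c x) (Icc 0 1) := by
    refine strictMonoOn_of_deriv_pos (convex_Icc 0 1)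
      (fun c _ => (d_c F.smooth c x).continuousAt.continuousWithinAt) ?_
    intro t ht
    rw [interior_Icc] at ht
    exact F.deriv_param t ⟨ht.1.le, ht.2.le⟩ x
  exact h1 ⟨hc.1, hc.2.le⟩ ⟨zero_le_one, le_rfl⟩ hc.2

/-- The next point of an orbit of the shifted leaf which starts on the leaf `c`. -/
theorem next_pt (F : InvFoliation h Φ) (hsym : ∀ x, h (x + π) = h x) {c : ℝ}
    (hc : c ∈ Ioc (0 : ℝ) 1) {t : ℝ} (ht : Φ c t = Φ 1 (t + π) - π) :
    Φ c (Φ c t) = Φ 1 (Φ c t + π) - π := by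
  have h1m : (1 : ℝ) ∈ Ioc (0 : ℝ) 1 := ⟨one_pos, le_rfl⟩
  have e1 := el_eq F hc t
  have e2 := el_eq F h1m (t + π)
  have e3 : Φ 1 (t + π) = Φ c t + π := by linarith
  obtain ⟨z, hz⟩ : ∃ z, z = Φ 1 (Φ c t + π) - π := ⟨_, rfl⟩
  have e4 : Φ 1 (Φ c t + π) = z + π := by linarith
  rw [e3, e4, sp_shift F hsym, sm_shift F hsym] at e2
  rw [← hz]
  have m1 : Φ c (Φ c t) ∈ Ioo (Φ c t) (Φ c t + π) := ⟨gt_self F hc _, F.lt_pi c hc _⟩
  have m2 : z ∈ Ioo (Φ c t) (Φ c t + π) := by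
    have g1 := gt_self F h1m (Φ c t + π)
    have g2 := F.lt_pi 1 h1m (Φ c t + π)
    constructor
    · linarith
    · linarith
  exact (sp_strictMono (famH F).jet (famH F).conv (Φ c t)).injOn m1 m2 (e1.trans e2.symm)

theorem shift_eq (F : InvFoliation h Φ) (hsym : ∀ x, h (x + π) = h x) (h4 : FourPeriodicLeaf Φ)
    (θ : ℝ) (hle : Φ 1 (θ + π) - π ≤ Φ 1 θ) : Φ 1 (θ + π) - π = Φ 1 θ := by
  have h1m : (1 : ℝ) ∈ Ioc (0 : ℝ) 1 := ⟨one_pos, le_rfl⟩
  have hcont : ContinuousOn (fun c => Φ c θ) (Icc 0 1) :=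
    fun c _ => (d_c F.smooth c θ).continuousAt.continuousWithinAt
  have hmem : Φ 1 (θ + π) - π ∈ Icc (Φ 0 θ) (Φ 1 θ) := by
    refine ⟨?_, hle⟩
    rw [F.zero]
    have := gt_self F h1m (θ + π)
    linarith
  obtain ⟨c, hc, hcy⟩ := intermediate_value_Icc zero_le_one hcont hmem
  have hcy' : Φ c θ = Φ 1 (θ + π) - π := hcy
  have hc0 : 0 < c := by
    rcases lt_or_eq_of_le hc.1 with h0 | h0
    · exact h0
    · exfalso
      rw [← h0, F.zero] at hcy'
      have := gt_self F h1m (θ + π)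
      linarith
  have hc' : c ∈ Ioc (0 : ℝ) 1 := ⟨hc0, hc.2⟩
  have k1 := next_pt F hsym hc' hcy'
  have k2 := next_pt F hsym hc' k1
  have k3 := next_pt F hsym hc' k2
  have e1 : Φ 1 (θ + π) = Φ c θ + π := by linarith
  have e2 : Φ 1 (Φ c θ + π) = Φ c (Φ c θ) + π := by linarith
  have e3 : Φ 1 (Φ c (Φ c θ) + π) = Φ c (Φ c (Φ c θ)) + π := by linarith
  have e4 : Φ 1 (Φ c (Φ c (Φ c θ)) + π) = Φ c (Φ c (Φ c (Φ c θ))) + π := by linarith
  have e5 := h4 (θ + π)
  rw [e1, e2, e3, e4] at e5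
  rcases lt_or_eq_of_le hc.2 with hlt | heq
  · exfalso
    have hm := mono_x F (c := 1) ⟨zero_le_one, le_rfl⟩
    have hco : c ∈ Ico (0 : ℝ) 1 := ⟨hc.1, hlt⟩
    have l1 := lt_one F hco θ
    have l2 := (lt_one F hco (Φ c θ)).trans (hm l1)
    have l3 := (lt_one F hco (Φ c (Φ c θ))).trans (hm l2)
    have l4 := (lt_one F hco (Φ c (Φ c (Φ c θ)))).trans (hm l3)
    rw [h4 θ] at l4
    linarith
  · rw [← hcy', heq]

/-- In the centrally symmetric case a leaf of four-periodic points consists of the vertices of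
parallelograms. -/
theorem four_parallelogram (F : InvFoliation h Φ) (hsym : ∀ x, h (x + π) = h x)
    (h4 : FourPeriodicLeaf Φ) : ParallelogramLeaf Φ := by
  have hm := mono_x F (c := 1) ⟨zero_le_one, le_rfl⟩
  have hs : ∀ θ, Φ 1 (θ + π) = Φ 1 θ + π := by
    intro θ
    rcases le_or_gt (Φ 1 (θ + π) - π) (Φ 1 θ) with h1 | h1
    · linarith [shift_eq F hsym h4 θ h1]
    · exfalso
      have e1 : Φ 1 (θ + π + π) = Φ 1 θ + 2 * π := by
        rw [show θ + π + π = θ + 2 * π by ring, F.per 1 ⟨zero_le_one, le_rfl⟩]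
      have h2 : Φ 1 (θ + π + π) - π ≤ Φ 1 (θ + π) := by
        rw [e1]
        linarith
      have h3 := shift_eq F hsym h4 (θ + π) h2
      rw [e1] at h3
      linarith
  intro θ
  have hf : ∀ θ, Φ 1 (Φ 1 (θ + π)) = Φ 1 (Φ 1 θ) + π := fun θ => by rw [hs, hs]
  have h5 := h4 θ
  rcases lt_trichotomy (Φ 1 (Φ 1 θ)) (θ + π) with h1 | h1 | h1
  · have h2 := hm (hm h1)
    rw [hf] at h2
    linarith
  · exact h1
  · have h2 := hm (hm h1)
    rw [hf] at h2
    linarith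

theorem parallelogram (F : InvFoliation h Φ)
    (hout : ParallelogramLeaf Φ ∨ (CentrallySymmetric h ∧ FourPeriodicLeaf Φ)) :
    ParallelogramLeaf Φ := by
  rcases hout with hP | ⟨⟨o, ho⟩, h4⟩
  · exact hP
  · refine four_parallelogram (tr_fol F o) (fun x => ?_) h4
    have h1 := ho x
    unfold gam at h1
    rw [Prod.ext_iff, cos_add_pi, sin_add_pi] at h1
    simp only [Prod.fst_add, Prod.snd_add, Prod.smul_fst, Prod.smul_snd, smul_eq_mul] at h1
    obtain ⟨e1, e2⟩ := h1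
    have t := sin_sq_add_cos_sq x
    unfold tr
    rw [cos_add_pi, sin_add_pi]
    linear_combination (-cos x) * e1 - sin x * e2 + (h x - h (x + π)) * t

end Pool.Agent.R279.OB
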