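import Pool.Agent.R279.OB.Geom
import Pool.Agent.R279.OB.Four

/-!
# The rigidity theorem for outer billiards
-/

namespace Pool.Agent.R279.OB

open Real Set MeasureTheory Filter Topology
open Pool.Agent.R279.PC (Pd Qd Rd)
open scoped ContDiff

variable {h : ℝ → ℝ} {Φ : ℝ → ℝ → ℝ}

/-- The centrally symmetric case. -/
theorem symm_case (F : InvFoliation h Φ) (ho : ParallelogramLeaf Φ)
    (hsym : ∀ x, h (x + π) = h x) :
    ∃ A B D : ℝ, Ell h A B D ∧ ∃ l : ℝ → ℝ, ∀ c ∈ Ioc (0 : ℝ) 1, 0 < l c ∧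
      ∀ x, sp (Hh h) x (Φ c x) = l c / h x := by
  obtain ⟨M, T⟩ := exists_rig F ho hsym
  have hpos := h_pos F ho hsym
  refine ⟨Hh h 0 0 ^ 2, W1 (Hh h) 0 / 2, Hh h 0 0 ^ 2 + W2 (Hh h) 0 / 2,
    ⟨hpos, fun x => ?_, fun x => ?_⟩, fun c => h 0 * sp (Hh h) 0 (Φ c 0), fun c hc => ⟨?_, ?_⟩⟩
  · have := T.form x
    rw [Hh_zero] at this ⊢
    exact this
  · have := T.form1 x
    rw [Hh_zero, Hh_one] at this
    rw [this, Hh_zero]
    ring
  · exact mul_pos (hpos 0) (sp_pos T.fam.jet T.fam.conv (gt_self F hc 0) (F.lt_pi c hc 0))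
  · intro x
    have := T.ell_const' hc x
    rw [Hh_zero] at this
    rw [eq_div_iff (hpos x).ne']
    linear_combination this

theorem rigidity (F : InvFoliation h Φ)
    (hout : ParallelogramLeaf Φ ∨ (CentrallySymmetric h ∧ FourPeriodicLeaf Φ)) :
    ∃ (o : ℝ × ℝ) (a b d : ℝ), 0 < a ∧ 0 < a * d - b ^ 2 ∧
      range (gam h) = {p | quad a b d (p - o) = 1} ∧
      ∀ c ∈ Ioc (0 : ℝ) 1, ∃ lam : ℝ, 1 < lam ∧
        range (fun θ => pt h θ (Φ c θ)) = {p | quad a b d (p - o) = lam} := by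
  have hP := parallelogram F hout
  obtain ⟨o, ho⟩ := centre F hP
  have F' := tr_fol F o
  have hsym : ∀ x, tr h o (x + π) = tr h o x := by
    intro x
    have h1 := ho x
    unfold tr
    rw [cos_add_pi, sin_add_pi]
    linarith
  obtain ⟨A, B, D, E, l, hl⟩ := symm_case F' hP hsym
  have hΔ := E.det_pos
  have hA := E.A_pos
  have hD := E.D_pos
  have hg : range (gam h) = {p | qf A B D (p - o) = 1} := by
    ext p
    constructor
    · rintro ⟨x, rfl⟩
      have h1 : gam h x - o = gam (tr h o) x := by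
        rw [tr_gam F.smooth_h o x, add_sub_cancel_right]
      show qf A B D (gam h x - o) = 1
      rw [h1]
      exact E.gam_on x
    · intro hp
      obtain ⟨x, hx⟩ := E.on_gam hp
      refine ⟨x, ?_⟩
      rw [tr_gam F.smooth_h o x, ← hx, sub_add_cancel]
  refine ⟨o, D / (A * D - B ^ 2), -B / (A * D - B ^ 2), A / (A * D - B ^ 2), by positivity, ?_, hg,
    fun c hc => ?_⟩
  · have e : D / (A * D - B ^ 2) * (A / (A * D - B ^ 2)) - (-B / (A * D - B ^ 2)) ^ 2
      = 1 / (A * D - B ^ 2) := by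
      field_simp
    rw [e]
    positivity
  · obtain ⟨hl0, hlc⟩ := hl c hc
    refine ⟨1 + l c ^ 2 / (A * D - B ^ 2), by
      have : 0 < l c ^ 2 / (A * D - B ^ 2) := by positivity
      linarith, ?_⟩
    have hpt : ∀ x, pt h x (Φ c x) - o = ((tr h o) x * cos x
        - (deriv (tr h o) x + l c / (tr h o) x) * sin x,
        (tr h o) x * sin x + (deriv (tr h o) x + l c / (tr h o) x) * cos x) := by
      intro x
      have hs := (sin_pos_leaf F hc x).ne'
      rw [tr_pt o hs, add_sub_cancel_right, pt_left hs, hlc x]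
    ext p
    constructor
    · rintro ⟨x, rfl⟩
      show qf A B D (pt h x (Φ c x) - o) = _
      rw [hpt, E.line]
      have := (E.pos x).ne'
      rw [mul_div_cancel₀ _ this]
    · intro hp
      obtain ⟨x, hx⟩ := E.on_leaf (l := l c) (p := p - o) hp
      refine ⟨x, ?_⟩
      show pt h x (Φ c x) = p
      rw [← hpt] at hx
      exact (sub_left_injective hx).symm

end Pool.Agent.R279.OB
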