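import Pool.Agent.R279.OB.Fam

/-!
# The flux is nondecreasing in the leaf parameter
-/

namespace Pool.Agent.R279.OB

open Real Set MeasureTheory Filter Topology
open Pool.Agent.R279.PC (Jet der_H der_sub dom slice)

variable {H : ℕ → ℝ → ℝ} {Φ P Q R : ℝ → ℝ → ℝ}

section cont

variable (F : Fam H Φ P Q R)

include F

theorem Fam.c_cu : ContinuousOn (fun p : ℝ × ℝ => cu (Φ p.1 p.2 - p.2)) dom := by
  have h := F.cΦ
  unfold cu
  exact ContinuousOn.div (by fun_prop) (by fun_prop)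
    (fun p hp => ((F.leaf p.1 hp.1).sin_pos p.2).ne')

theorem Fam.c_cs : ContinuousOn (fun p : ℝ × ℝ => cs (Φ p.1 p.2 - p.2)) dom := by
  have h := F.cΦ
  unfold cs
  exact ContinuousOn.div (by fun_prop) (by fun_prop)
    (fun p hp => ((F.leaf p.1 hp.1).sin_pos p.2).ne')

theorem Fam.c_H (k : ℕ) : ContinuousOn (fun p : ℝ × ℝ => H k p.2) dom :=
  ((F.jet.cont k).comp continuous_snd).continuousOn

theorem Fam.c_HΦ (k : ℕ) : ContinuousOn (fun p : ℝ × ℝ => H k (Φ p.1 p.2)) dom :=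
  ((F.jet.cont k).comp F.cΦ).continuousOn

theorem Fam.c_sp : ContinuousOn (fun p : ℝ × ℝ => sp H p.2 (Φ p.1 p.2)) dom :=
  (((F.c_HΦ 0).mul F.c_cs).sub ((F.c_H 0).mul F.c_cu)).sub (F.c_H 1)

theorem Fam.c_sm : ContinuousOn (fun p : ℝ × ℝ => sm H p.2 (Φ p.1 p.2)) dom :=
  ((F.c_HΦ 1).sub ((F.c_HΦ 0).mul F.c_cu)).add ((F.c_H 0).mul F.c_cs)

theorem Fam.c_nn : ContinuousOn (fun p : ℝ × ℝ => nn H p.2 (Φ p.1 p.2)) dom :=
  ((F.c_H 0).mul F.c_sp).sub ((F.c_HΦ 0).mul F.c_sm)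

theorem Fam.c_al : ContinuousOn (fun p : ℝ × ℝ => al H p.2 (Φ p.1 p.2)) dom :=
  (F.c_H 0).mul (F.c_sm.mul F.c_cs)

theorem Fam.c_be : ContinuousOn (fun p : ℝ × ℝ => be H p.2 (Φ p.1 p.2)) dom :=
  (F.c_HΦ 0).mul (F.c_sp.mul F.c_cs)

theorem Fam.c_nny : ContinuousOn (fun p : ℝ × ℝ => nny H p.2 (Φ p.1 p.2)) dom :=
  (((F.c_H 0).mul (F.c_sm.mul F.c_cs)).sub ((F.c_HΦ 1).mul F.c_sm)).sub
    ((F.c_HΦ 0).mul (((F.c_HΦ 0).add (F.c_HΦ 2)).sub (F.c_sm.mul F.c_cu)))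

theorem Fam.c_aly : ContinuousOn (fun p : ℝ × ℝ => aly H p.2 (Φ p.1 p.2)) dom :=
  (F.c_H 0).mul (((((F.c_HΦ 0).add (F.c_HΦ 2)).sub (F.c_sm.mul F.c_cu)).mul F.c_cs).sub
    (F.c_sm.mul (F.c_cs.mul F.c_cu)))

theorem Fam.c_bey : ContinuousOn (fun p : ℝ × ℝ => bey H p.2 (Φ p.1 p.2)) dom :=
  ((F.c_HΦ 1).mul (F.c_sp.mul F.c_cs)).add ((F.c_HΦ 0).mul (((F.c_sm.mul F.c_cs).mul F.c_cs).sub
    (F.c_sp.mul (F.c_cs.mul F.c_cu))))

theorem Fam.c_flx : ContinuousOn (fun p : ℝ × ℝ => flx H Φ P p.1 p.2) dom :=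
  F.c_nn.mul ((F.c_al.mul (F.cP.continuousOn (s := dom))).sub F.c_be)

theorem Fam.c_aux : ContinuousOn (fun p : ℝ × ℝ => aux H Φ Q p.1 p.2) dom :=
  (F.c_nn.mul (F.c_al.mul (F.cQ.continuousOn (s := dom)))).neg

theorem Fam.c_flxC : ContinuousOn (fun p : ℝ × ℝ => flxC H Φ P Q R p.1 p.2) dom := by
  have h5 := F.cP.continuousOn (s := dom)
  have h6 := F.cQ.continuousOn (s := dom)
  have h7 := F.cR.continuousOn (s := dom)
  exact ((F.c_nny.mul h6).mul ((F.c_al.mul h5).sub F.c_be)).add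
    (F.c_nn.mul ((((F.c_aly.mul h6).mul h5).add (F.c_al.mul h7)).sub (F.c_bey.mul h6)))

theorem Fam.c_rho : ContinuousOn (fun p : ℝ × ℝ => rho H Φ Q p.1 p.2) dom :=
  (F.cQ.continuousOn (s := dom)).mul ((F.c_sp.mul F.c_sm).mul F.c_cs)

theorem Fam.c_pst : ContinuousOn (fun p : ℝ × ℝ => pst H Φ P Q p.1 p.2) dom := by
  have h5 := F.cP.continuousOn (s := dom)
  have h6 := F.cQ.continuousOn (s := dom)
  exact h6.mul (((((F.c_al.mul h5).sub F.c_be).pow 2).div h5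
    (fun p hp => ((F.leaf p.1 hp.1).pos p.2).ne')).add
    ((continuousOn_const.mul (F.c_cs.pow 2)).mul (F.c_nn.pow 2)))

theorem Fam.c_F1 {c : ℝ} (hc : c ∈ Ioc (0 : ℝ) 1) : Continuous (F1 H (Φ c) (P c)) := by
  have L := F.leaf c hc
  have a1 : Continuous fun x => cu (Φ c x - x) :=
    slice (G := fun c x => cu (Φ c x - x)) F.c_cu hc
  have a2 : Continuous fun x => cs (Φ c x - x) :=
    slice (G := fun c x => cs (Φ c x - x)) F.c_cs hc
  have a3 : Continuous fun x => sp H x (Φ c x) :=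
    slice (G := fun c x => sp H x (Φ c x)) F.c_sp hc
  have a4 : Continuous fun x => sm H x (Φ c x) :=
    slice (G := fun c x => sm H x (Φ c x)) F.c_sm hc
  have h0 := F.jet.cont 0
  have h1 := F.jet.cont 1
  have h2 := F.jet.cont 2
  have hp : ∀ x, sp H x (Φ c x) ≠ 0 := fun x => (sp_pos F.jet F.conv (L.gt x) (L.lt x)).ne'
  unfold F1
  exact (((h0.pow 2).mul ((a1.sub ((h0.add h2).div a3 hp)).add
    (((a4.mul a2).mul L.cont).div a3 hp))).neg).sub (h0.mul h1)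

end cont

section per

variable (F : Fam H Φ P Q R) {c : ℝ} (hc : c ∈ Ioc (0 : ℝ) 1) (x : ℝ)

include F hc

theorem Fam.per_sub : Φ c (x + 2 * π) - (x + 2 * π) = Φ c x - x := by
  rw [(F.leaf c hc).per]
  ring

theorem Fam.per_P : P c (x + 2 * π) = P c x := by
  have h1 : HasDerivAt (fun x => Φ c (x + 2 * π)) (P c (x + 2 * π)) x :=
    (F.dx c (x + 2 * π)).comp_add_const x (2 * π)
  have h2 : (fun x => Φ c (x + 2 * π)) = fun x => Φ c x + 2 * π := funext (F.leaf c hc).per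
  rw [h2] at h1
  exact h1.unique ((F.dx c x).add_const _)

theorem Fam.per_sp : sp H (x + 2 * π) (Φ c (x + 2 * π)) = sp H x (Φ c x) := by
  unfold sp
  rw [F.per_sub hc, (F.leaf c hc).per]
  simp only [F.jet.per]

theorem Fam.per_sm : sm H (x + 2 * π) (Φ c (x + 2 * π)) = sm H x (Φ c x) := by
  unfold sm
  rw [F.per_sub hc, (F.leaf c hc).per]
  simp only [F.jet.per]

theorem Fam.per_HΦ (k : ℕ) : H k (Φ c (x + 2 * π)) = H k (Φ c x) := by
  rw [(F.leaf c hc).per, F.jet.per]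

theorem Fam.per_nn : nn H (x + 2 * π) (Φ c (x + 2 * π)) = nn H x (Φ c x) := by
  unfold nn
  rw [F.per_sp hc, F.per_sm hc, F.per_HΦ hc, F.jet.per]

theorem Fam.per_al : al H (x + 2 * π) (Φ c (x + 2 * π)) = al H x (Φ c x) := by
  unfold al
  rw [F.per_sm hc, F.per_sub hc, F.jet.per]

theorem Fam.per_be : be H (x + 2 * π) (Φ c (x + 2 * π)) = be H x (Φ c x) := by
  unfold be
  rw [F.per_sp hc, F.per_sub hc, F.per_HΦ hc]

theorem Fam.per_aux : aux H Φ Q c (x + 2 * π) = aux H Φ Q c x := by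
  unfold aux
  rw [F.per_nn hc, F.per_al hc, F.Qper c hc]

theorem Fam.per_rho : rho H Φ Q c (x + 2 * π) = rho H Φ Q c x := by
  unfold rho
  rw [F.per_sp hc, F.per_sm hc, F.per_sub hc, F.Qper c hc]

theorem Fam.per_F1 : F1 H (Φ c) (P c) (x + 2 * π) = F1 H (Φ c) (P c) x := by
  unfold F1
  rw [F.per_sp hc, F.per_sm hc, F.per_sub hc, F.per_P hc]
  simp only [F.jet.per]

end per

/-- The flux through the leaf `c`. -/
noncomputable def J (H : ℕ → ℝ → ℝ) (Φ P : ℝ → ℝ → ℝ) (c : ℝ) : ℝ :=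
  ∫ x in (0 : ℝ)..2 * π, flx H Φ P c x

theorem Fam.int_flxC (F : Fam H Φ P Q R) {c : ℝ} (hc : c ∈ Ioo (0 : ℝ) 1) :
    ∫ x in (0 : ℝ)..2 * π, flxC H Φ P Q R c x = ∫ x in (0 : ℝ)..2 * π, pst H Φ P Q c x := by
  have hc' : c ∈ Ioc (0 : ℝ) 1 := ⟨hc.1, hc.2.le⟩
  have c1 : Continuous (flxC H Φ P Q R c) := slice F.c_flxC hc'
  have c2 : Continuous (pst H Φ P Q c) := slice F.c_pst hc'
  have c3 : Continuous (rho H Φ Q c) := slice F.c_rho hc'
  have c4 := F.c_F1 hc'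
  have c5 := (F.leaf c hc').contφ
  have h1 := intervalIntegral.integral_eq_sub_of_hasDerivAt (a := 0) (b := 2 * π)
    (fun x _ => F.daux hc' x) (Continuous.intervalIntegrable (by fun_prop) _ _)
  have h2 : aux H Φ Q c (2 * π) = aux H Φ Q c 0 := by simpa using F.per_aux hc' 0
  rw [h2, sub_self, intervalIntegral.integral_sub (Continuous.intervalIntegrable (by fun_prop) _ _)
    (Continuous.intervalIntegrable (by fun_prop) _ _),
    intervalIntegral.integral_sub (Continuous.intervalIntegrable (by fun_prop) _ _)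
    (Continuous.intervalIntegrable (by fun_prop) _ _),
    intervalIntegral.integral_add (Continuous.intervalIntegrable (by fun_prop) _ _)
    (Continuous.intervalIntegrable (by fun_prop) _ _),
    integral_invariant (F.leaf c hc') c4 c3 (F.per_F1 hc') (F.per_rho hc')
      (F.invariant hc)] at h1
  linarith

theorem Fam.dJ (F : Fam H Φ P Q R) {c : ℝ} (hc : c ∈ Ioo (0 : ℝ) 1) :
    HasDerivAt (J H Φ P) (∫ x in (0 : ℝ)..2 * π, pst H Φ P Q c x) c := by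
  rw [← F.int_flxC hc]
  obtain ⟨a, ha0, hac⟩ := exists_between hc.1
  obtain ⟨b, hcb, hb1⟩ := exists_between hc.2
  have hsub : Icc a b ×ˢ uIcc (0 : ℝ) (2 * π) ⊆ dom := fun p hp =>
    ⟨⟨lt_of_lt_of_le ha0 hp.1.1, hp.1.2.trans hb1.le⟩, mem_univ _⟩
  obtain ⟨C, hC⟩ := (isCompact_Icc.prod isCompact_uIcc).exists_bound_of_continuousOn
    (F.c_flxC.mono hsub)
  refine (intervalIntegral.hasDerivAt_integral_of_dominated_loc_of_deriv_le (F := flx H Φ P)
    (F' := flxC H Φ P Q R) (bound := fun _ => C) (s := Ioo a b) (Ioo_mem_nhds hac hcb)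
    ?_ ?_ ?_ ?_ ?_ ?_).2
  · filter_upwards [Ioo_mem_nhds hac hcb] with s hs
    exact (slice F.c_flx ⟨ha0.trans hs.1, (hs.2.trans hb1).le⟩).aestronglyMeasurable
  · exact (slice F.c_flx ⟨hc.1, hc.2.le⟩).intervalIntegrable _ _
  · exact (slice F.c_flxC ⟨hc.1, hc.2.le⟩).aestronglyMeasurable
  · refine Filter.Eventually.of_forall fun t ht s hs => ?_
    exact hC (s, t) ⟨⟨hs.1.le, hs.2.le⟩, uIoc_subset_uIcc ht⟩
  · exact intervalIntegrable_const
  · exact Filter.Eventually.of_forall fun t _ s hs =>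
      F.dflx ⟨ha0.trans hs.1, (hs.2.trans hb1).le⟩ t

theorem Fam.pst_nonneg (F : Fam H Φ P Q R) {c : ℝ} (hc : c ∈ Ioc (0 : ℝ) 1) (x : ℝ) :
    0 ≤ pst H Φ P Q c x := by
  have L := F.leaf c hc
  have h1 := L.pos x
  have h3 := F.Qpos c hc x
  unfold pst
  positivity

theorem Fam.contJ (F : Fam H Φ P Q R) : ContinuousOn (J H Φ P) (Ioc 0 1) := by
  rw [continuousOn_iff_continuous_domRestrict]
  have h1 : Continuous (Function.uncurry (fun (t : Ioc (0 : ℝ) 1) (x : ℝ) => flx H Φ P t x)) := by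
    have h2 : Continuous (fun p : (Ioc (0 : ℝ) 1 : Set ℝ) × ℝ => (((p.1 : ℝ), p.2) : ℝ × ℝ)) := by
      fun_prop
    exact F.c_flx.comp_continuous h2 (fun p => ⟨p.1.2, mem_univ _⟩)
  exact intervalIntegral.continuous_parametric_intervalIntegral_of_continuous' h1 0 (2 * π)

theorem Fam.monoJ (F : Fam H Φ P Q R) : MonotoneOn (J H Φ P) (Ioc 0 1) := by
  refine monotoneOn_of_deriv_nonneg (convex_Ioc 0 1) F.contJ ?_ ?_
  · rw [interior_Ioc]
    exact fun c hc => (F.dJ hc).differentiableAt.differentiableWithinAt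
  · rw [interior_Ioc]
    intro c hc
    rw [(F.dJ hc).deriv]
    exact intervalIntegral.integral_nonneg (by positivity)
      (fun x _ => F.pst_nonneg ⟨hc.1, hc.2.le⟩ x)

end Pool.Agent.R279.OB
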