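import Pool.Agent.R279.OB.Centre

/-!
# Ellipses in terms of the support function
-/

namespace Pool.Agent.R279.OB

open Real Set
open scoped ContDiff

/-- Polar coordinates. -/
theorem exists_polar {p q : ℝ} (hpq : p ≠ 0 ∨ q ≠ 0) :
    ∃ r θ : ℝ, 0 < r ∧ p = r * cos θ ∧ q = r * sin θ := by
  refine ⟨‖(⟨p, q⟩ : ℂ)‖, Complex.arg ⟨p, q⟩, ?_, ?_, ?_⟩
  · rw [norm_pos_iff]
    intro h0
    rw [Complex.ext_iff] at h0
    rcases hpq with h | h
    · exact h h0.1
    · exact h h0.2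
  · exact (Complex.norm_mul_cos_arg (⟨p, q⟩ : ℂ)).symm
  · exact (Complex.norm_mul_sin_arg (⟨p, q⟩ : ℂ)).symm

/-- The support function `h` of an ellipse with centre `0`: `h² = A cos² + 2 B sin cos + D sin²`. -/
structure Ell (h : ℝ → ℝ) (A B D : ℝ) : Prop where
  pos : ∀ x, 0 < h x
  sq : ∀ x, h x ^ 2 = A * cos x ^ 2 + 2 * B * (sin x * cos x) + D * sin x ^ 2
  mul : ∀ x, h x * deriv h x = B * (cos x ^ 2 - sin x ^ 2) + (D - A) * (sin x * cos x)

variable {h : ℝ → ℝ} {A B D : ℝ}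

theorem Ell.A_pos (E : Ell h A B D) : 0 < A := by
  have h1 := E.sq 0
  have h2 := E.pos 0
  simp only [cos_zero, sin_zero] at h1
  nlinarith

theorem Ell.D_pos (E : Ell h A B D) : 0 < D := by
  have h1 := E.sq (π / 2)
  have h2 := E.pos (π / 2)
  simp only [cos_pi_div_two, sin_pi_div_two] at h1
  nlinarith

theorem Ell.det_pos (E : Ell h A B D) : 0 < A * D - B ^ 2 := by
  have hA := E.A_pos
  obtain ⟨r, θ, hr, h1, h2⟩ := exists_polar (p := -B) (q := A) (Or.inr hA.ne')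
  have h3 := E.sq θ
  have h4 := E.pos θ
  have h5 : r ^ 2 * h θ ^ 2 = A * (A * D - B ^ 2) := by
    rw [h3]
    have e : r ^ 2 * (A * cos θ ^ 2 + 2 * B * (sin θ * cos θ) + D * sin θ ^ 2)
      = A * (r * cos θ) ^ 2 + 2 * B * ((r * sin θ) * (r * cos θ)) + D * (r * sin θ) ^ 2 := by ring
    rw [e, ← h1, ← h2]
    ring
  have h6 : 0 < r ^ 2 * h θ ^ 2 := by positivity
  rw [h5] at h6
  exact (pos_iff_pos_of_mul_pos h6).1 hA

/-- The quadratic form of the ellipse. -/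
noncomputable def qf (A B D : ℝ) (p : ℝ × ℝ) : ℝ :=
  quad (D / (A * D - B ^ 2)) (-B / (A * D - B ^ 2)) (A / (A * D - B ^ 2)) p

theorem qf_eq (p : ℝ × ℝ) :
    qf A B D p = (D * p.1 ^ 2 - 2 * B * (p.1 * p.2) + A * p.2 ^ 2) / (A * D - B ^ 2) := by
  unfold qf quad
  ring

/-- Its values on a tangent line. -/
theorem Ell.line (E : Ell h A B D) (x s : ℝ) :
    qf A B D (h x * cos x - (deriv h x + s) * sin x, h x * sin x + (deriv h x + s) * cos x)
      = 1 + (h x * s) ^ 2 / (A * D - B ^ 2) := by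
  have hΔ := E.det_pos.ne'
  have e0 := E.sq x
  have e1 := E.mul x
  have t := sin_sq_add_cos_sq x
  rw [qf_eq, div_eq_iff hΔ, add_mul 1 _ (A * D - B ^ 2), one_mul, div_mul_cancel₀ _ hΔ]
  simp only
  set c := cos x
  set σ := sin x
  linear_combination (D * c ^ 2 - 2 * B * (σ * c) + A * σ ^ 2 - (deriv h x + s) ^ 2) * e0
    + (2 * h x * (deriv h x + s) - h x * deriv h x
      - (B * (c ^ 2 - σ ^ 2) + (D - A) * (σ * c))) * e1
    + (A * D - B ^ 2) * (σ ^ 2 + c ^ 2 + 1) * t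

theorem Ell.gam_on (E : Ell h A B D) (x : ℝ) : qf A B D (gam h x) = 1 := by
  have h1 := E.line x 0
  simp only [add_zero, mul_zero] at h1
  have h2 : gam h x = (h x * cos x - deriv h x * sin x, h x * sin x + deriv h x * cos x) := rfl
  rw [h2, h1]
  simp

/-- `h · γ = M n`. -/
theorem Ell.mul_gam (E : Ell h A B D) (x : ℝ) :
    h x * (gam h x).1 = A * cos x + B * sin x ∧ h x * (gam h x).2 = B * cos x + D * sin x := by
  have e0 := E.sq x
  have e1 := E.mul x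
  have t := sin_sq_add_cos_sq x
  unfold gam
  constructor
  · simp only
    linear_combination cos x * e0 - sin x * e1 + (A * cos x + B * sin x) * t
  · simp only
    linear_combination sin x * e0 + cos x * e1 + (B * cos x + D * sin x) * t

theorem Ell.on_gam (E : Ell h A B D) {p : ℝ × ℝ} (hp : qf A B D p = 1) : ∃ x, p = gam h x := by
  have hΔ := E.det_pos
  have hne : D * p.1 - B * p.2 ≠ 0 ∨ A * p.2 - B * p.1 ≠ 0 := by
    by_contra hcon
    push Not at hcon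
    obtain ⟨c1, c2⟩ := hcon
    rw [qf_eq] at hp
    have : D * p.1 ^ 2 - 2 * B * (p.1 * p.2) + A * p.2 ^ 2 = 0 := by
      linear_combination p.1 * c1 + p.2 * c2
    rw [this, zero_div] at hp
    exact zero_ne_one hp
  obtain ⟨r, θ, hr, h1, h2⟩ := exists_polar hne
  obtain ⟨g1, g2⟩ := E.mul_gam θ
  have hθ := E.pos θ
  have hone := E.gam_on θ
  obtain ⟨k, hk⟩ : ∃ k, k = r * h θ / (A * D - B ^ 2) := ⟨_, rfl⟩
  have hk0 : 0 < k := by
    rw [hk]
    positivity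
  have p1 : p.1 = k * (gam h θ).1 := by
    rw [hk, div_mul_eq_mul_div, eq_div_iff hΔ.ne']
    linear_combination (-r) * g1 + A * h1 + B * h2
  have p2 : p.2 = k * (gam h θ).2 := by
    rw [hk, div_mul_eq_mul_div, eq_div_iff hΔ.ne']
    linear_combination (-r) * g2 + B * h1 + D * h2
  have h3 : qf A B D p = k ^ 2 * qf A B D (gam h θ) := by
    rw [qf_eq, qf_eq, p1, p2]
    ring
  rw [hp, hone, mul_one] at h3
  have hk1 : k = 1 := by nlinarith
  refine ⟨θ, ?_⟩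
  rw [Prod.ext_iff]
  rw [hk1, one_mul] at p1 p2
  exact ⟨p1, p2⟩

theorem Ell.gam_range (E : Ell h A B D) : range (gam h) = {p | qf A B D p = 1} := by
  ext p
  constructor
  · rintro ⟨x, rfl⟩
    exact E.gam_on x
  · intro hp
    obtain ⟨x, hx⟩ := E.on_gam hp
    exact ⟨x, hx.symm⟩

/-- Every point of a homothetic ellipse around `γ` is at the expected place of a tangent line. -/
theorem Ell.on_leaf (E : Ell h A B D) {l : ℝ} {p : ℝ × ℝ}
    (hp : qf A B D p = 1 + l ^ 2 / (A * D - B ^ 2)) :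
    ∃ x, p = (h x * cos x - (deriv h x + l / h x) * sin x,
      h x * sin x + (deriv h x + l / h x) * cos x) := by
  have hΔ := E.det_pos
  obtain ⟨Δ, hΔd⟩ : ∃ Δ, Δ = A * D - B ^ 2 := ⟨_, rfl⟩
  rw [← hΔd] at hp hΔ
  obtain ⟨lam, hlam⟩ : ∃ lam, lam = 1 + l ^ 2 / Δ := ⟨_, rfl⟩
  have hlam0 : 0 < lam := by
    rw [hlam]
    positivity
  have hlam' : lam * Δ = Δ + l ^ 2 := by
    rw [hlam]
    field_simp
  have hp' : D * p.1 ^ 2 - 2 * B * (p.1 * p.2) + A * p.2 ^ 2 = lam * Δ := by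
    rw [qf_eq, ← hΔd, ← hlam, div_eq_iff hΔ.ne'] at hp
    exact hp
  obtain ⟨g, hg⟩ : ∃ g : ℝ × ℝ, g = ((p.1 - l / Δ * (B * p.1 - A * p.2)) / lam,
    (p.2 - l / Δ * (D * p.1 - B * p.2)) / lam) := ⟨_, rfl⟩
  have hg1 : lam * Δ * g.1 = Δ * p.1 - l * (B * p.1 - A * p.2) := by
    rw [hg]
    field_simp
  have hg2 : lam * Δ * g.2 = Δ * p.2 - l * (D * p.1 - B * p.2) := by
    rw [hg]
    field_simp
  have hq : qf A B D g = 1 := by
    rw [qf_eq, ← hΔd, div_eq_one_iff_eq hΔ.ne']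
    have hne : (lam * Δ) ^ 2 ≠ 0 := by positivity
    apply mul_left_cancel₀ hne
    have e : (lam * Δ) ^ 2 * (D * g.1 ^ 2 - 2 * B * (g.1 * g.2) + A * g.2 ^ 2)
      = D * (lam * Δ * g.1) ^ 2 - 2 * B * ((lam * Δ * g.1) * (lam * Δ * g.2))
        + A * (lam * Δ * g.2) ^ 2 := by ring
    rw [e, hg1, hg2]
    have e2 : D * (Δ * p.1 - l * (B * p.1 - A * p.2)) ^ 2
        - 2 * B * ((Δ * p.1 - l * (B * p.1 - A * p.2)) * (Δ * p.2 - l * (D * p.1 - B * p.2)))
        + A * (Δ * p.2 - l * (D * p.1 - B * p.2)) ^ 2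
      = (Δ ^ 2 + l ^ 2 * (A * D - B ^ 2))
        * (D * p.1 ^ 2 - 2 * B * (p.1 * p.2) + A * p.2 ^ 2) := by ring
    rw [e2, hp', ← hΔd]
    linear_combination (-(lam * Δ ^ 2)) * hlam'
  obtain ⟨x, hx⟩ := E.on_gam hq
  obtain ⟨k1, k2⟩ := E.mul_gam x
  have hx0 := E.pos x
  refine ⟨x, ?_⟩
  rw [hx] at hg1 hg2
  -- the inverse relation `p = g + (l / Δ) M J g`
  have r1 : Δ * p.1 = Δ * (gam h x).1 + l * (B * (gam h x).1 - A * (gam h x).2) := by
    have hne : lam ≠ 0 := hlam0.ne'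
    apply mul_left_cancel₀ (mul_ne_zero hne hΔ.ne')
    linear_combination (-(Δ + l * B)) * hg1 + l * A * hg2
      + Δ * p.1 * hlam' + l ^ 2 * p.1 * hΔd
  have r2 : Δ * p.2 = Δ * (gam h x).2 + l * (D * (gam h x).1 - B * (gam h x).2) := by
    have hne : lam ≠ 0 := hlam0.ne'
    apply mul_left_cancel₀ (mul_ne_zero hne hΔ.ne')
    linear_combination (-(Δ - l * B)) * hg2 - l * D * hg1
      + Δ * p.2 * hlam' + l ^ 2 * p.2 * hΔd
  have m1 : h x * (B * (gam h x).1 - A * (gam h x).2) = -(Δ * sin x) := by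
    linear_combination B * k1 - A * k2 + sin x * hΔd
  have m2 : h x * (D * (gam h x).1 - B * (gam h x).2) = Δ * cos x := by
    linear_combination D * k1 - B * k2 - cos x * hΔd
  have n1 : B * (gam h x).1 - A * (gam h x).2 = -(Δ * sin x) / h x := by
    rw [eq_div_iff hx0.ne']
    linear_combination m1
  have n2 : D * (gam h x).1 - B * (gam h x).2 = Δ * cos x / h x := by
    rw [eq_div_iff hx0.ne']
    linear_combination m2
  rw [n1] at r1
  rw [n2] at r2
  rw [Prod.ext_iff]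
  constructor
  · apply mul_left_cancel₀ hΔ.ne'
    rw [r1]
    simp only [gam]
    ring
  · apply mul_left_cancel₀ hΔ.ne'
    rw [r2]
    simp only [gam]
    ring

end Pool.Agent.R279.OB
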