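import Pool.Agent.R279.OB.Flux
import Pool.Agent.R279.PC.Taylor

/-!
# The flux tends to zero at the curve, and the conclusion
-/

namespace Pool.Agent.R279.OB

open Real Set MeasureTheory Filter Topology
open Pool.Agent.R279.PC (Jet der_H der_sub dom slice)

variable {H : ℕ → ℝ → ℝ} {Φ P Q R : ℝ → ℝ → ℝ}

theorem k1_le (hH : Jet H) {B : ℝ} (hB : ∀ k < 3, ∀ x, |H k x| ≤ B) {x y : ℝ} (h1 : x < y) :
    |H 0 y - H 0 x * cos (y - x) - H 1 x * sin (y - x)| ≤ 2 * B * (y - x) ^ 2 := by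
  have hcont : ContinuousOn (fun t => H 1 t * sin (y - t) + H 0 t * cos (y - t)) (Icc x y) :=
    fun t _ => (der_k1 hH y t).continuousAt.continuousWithinAt
  obtain ⟨t, ht, h3⟩ := exists_hasDerivAt_eq_slope
    (fun t => H 1 t * sin (y - t) + H 0 t * cos (y - t))
    (fun t => (H 0 t + H 2 t) * sin (y - t)) h1 hcont (fun t _ => der_k1 hH y t)
  simp only [sub_self, sin_zero, cos_zero, mul_zero, mul_one, zero_add] at h3
  have h0 : 0 < y - x := sub_pos.2 h1
  rw [eq_div_iff h0.ne'] at h3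
  have h4 : H 0 y - H 0 x * cos (y - x) - H 1 x * sin (y - x)
      = (H 0 t + H 2 t) * sin (y - t) * (y - x) := by linarith
  have h5 : |sin (y - t)| ≤ y - x := by
    refine (abs_sin_le_abs).trans ?_
    rw [abs_of_pos (by linarith [ht.2])]
    linarith [ht.1]
  have h6 : |H 0 t + H 2 t| ≤ 2 * B := by
    refine (abs_add_le _ _).trans ?_
    linarith [hB 0 (by norm_num) t, hB 2 (by norm_num) t]
  rw [h4, abs_mul, abs_mul, abs_of_pos h0]
  calc |H 0 t + H 2 t| * |sin (y - t)| * (y - x) ≤ 2 * B * (y - x) * (y - x) := by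
        gcongr
        exact (abs_nonneg _).trans h6
    _ = _ := by ring

theorem k2_le (hH : Jet H) {B : ℝ} (hB : ∀ k < 3, ∀ x, |H k x| ≤ B) {x y : ℝ} (h1 : x < y) :
    |H 1 y * sin (y - x) - H 0 y * cos (y - x) + H 0 x| ≤ 2 * B * (y - x) ^ 2 := by
  have hcont : ContinuousOn (fun t => H 1 t * sin (t - x) - H 0 t * cos (t - x)) (Icc x y) :=
    fun t _ => (der_k2 hH x t).continuousAt.continuousWithinAt
  obtain ⟨t, ht, h3⟩ := exists_hasDerivAt_eq_slope
    (fun t => H 1 t * sin (t - x) - H 0 t * cos (t - x))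
    (fun t => (H 0 t + H 2 t) * sin (t - x)) h1 hcont (fun t _ => der_k2 hH x t)
  simp only [sub_self, sin_zero, cos_zero, mul_zero, mul_one, zero_sub] at h3
  have h0 : 0 < y - x := sub_pos.2 h1
  rw [eq_div_iff h0.ne'] at h3
  have h4 : H 1 y * sin (y - x) - H 0 y * cos (y - x) + H 0 x
      = (H 0 t + H 2 t) * sin (t - x) * (y - x) := by linarith
  have h5 : |sin (t - x)| ≤ y - x := by
    refine (abs_sin_le_abs).trans ?_
    rw [abs_of_pos (by linarith [ht.1])]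
    linarith [ht.2]
  have h6 : |H 0 t + H 2 t| ≤ 2 * B := by
    refine (abs_add_le _ _).trans ?_
    linarith [hB 0 (by norm_num) t, hB 2 (by norm_num) t]
  rw [h4, abs_mul, abs_mul, abs_of_pos h0]
  calc |H 0 t + H 2 t| * |sin (t - x)| * (y - x) ≤ 2 * B * (y - x) * (y - x) := by
        gcongr
        exact (abs_nonneg _).trans h6
    _ = _ := by ring

theorem flx_bound (F : Fam H Φ P Q R) {M : ℝ} (hM : 0 < M)
    (hb : ∀ c ∈ Ioc (0 : ℝ) 1, ∀ x, Φ c x - x ≤ M * c ∧ |P c x| ≤ M) :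
    ∃ K, ∀ c ∈ Ioc (0 : ℝ) 1, M * c ≤ π / 2 → ∀ x, |flx H Φ P c x| ≤ K * c := by
  obtain ⟨B, hB0, hB⟩ := F.jet.bound 3
  refine ⟨2 * B * (π * B * M) * (B * (π * B * (π / 2)) * (M + 1)), fun c hc hcπ x => ?_⟩
  obtain ⟨b2, b3⟩ := hb c hc x
  have L := F.leaf c hc
  have hlt := L.gt x
  obtain ⟨y, hy⟩ : ∃ y, y = Φ c x := ⟨_, rfl⟩
  rw [← hy] at b2 hlt
  have hu0 : 0 < y - x := sub_pos.2 hlt
  have hsin : 2 / π * (y - x) ≤ sin (y - x) := mul_le_sin hu0.le (b2.trans hcπ)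
  have hs0 : 0 < sin (y - x) := lt_of_lt_of_le (by positivity) hsin
  have hcs : |cs (y - x)| ≤ π / 2 / (y - x) := by
    unfold cs
    rw [abs_of_pos (by positivity), div_le_div_iff₀ hs0 hu0]
    have := mul_le_mul_of_nonneg_left hsin (by positivity : (0 : ℝ) ≤ π / 2)
    calc 1 * (y - x) = π / 2 * (2 / π * (y - x)) := by field_simp
      _ ≤ _ := this
  have hsp : |sp H x y| ≤ π * B * (y - x) := by
    rw [sp_mul hs0.ne', abs_div, abs_of_pos hs0, div_le_iff₀ hs0]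
    calc _ ≤ 2 * B * (y - x) ^ 2 := k1_le F.jet hB hlt
      _ = π * B * (y - x) * (2 / π * (y - x)) := by field_simp
      _ ≤ _ := by gcongr
  have hsm : |sm H x y| ≤ π * B * (y - x) := by
    rw [sm_mul hs0.ne', abs_div, abs_of_pos hs0, div_le_iff₀ hs0]
    calc _ ≤ 2 * B * (y - x) ^ 2 := k2_le F.jet hB hlt
      _ = π * B * (y - x) * (2 / π * (y - x)) := by field_simp
      _ ≤ _ := by gcongr
  have hal : |al H x y| ≤ B * (π * B * (π / 2)) := by
    unfold al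
    rw [abs_mul, abs_mul]
    calc _ ≤ B * (π * B * (y - x) * (π / 2 / (y - x))) := by
          gcongr
          exact hB 0 (by norm_num) x
      _ = _ := by field_simp
  have hbe : |be H x y| ≤ B * (π * B * (π / 2)) := by
    unfold be
    rw [abs_mul, abs_mul]
    calc _ ≤ B * (π * B * (y - x) * (π / 2 / (y - x))) := by
          gcongr
          exact hB 0 (by norm_num) y
      _ = _ := by field_simp
  have hnn : |nn H x y| ≤ 2 * B * (π * B * M * c) := by
    unfold nn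
    refine (abs_sub _ _).trans ?_
    rw [abs_mul, abs_mul]
    have e1 : |H 0 x| * |sp H x y| ≤ B * (π * B * (y - x)) := by
      gcongr
      exact hB 0 (by norm_num) x
    have e2 : |H 0 y| * |sm H x y| ≤ B * (π * B * (y - x)) := by
      gcongr
      exact hB 0 (by norm_num) y
    have e3 : B * (π * B * (y - x)) ≤ B * (π * B * (M * c)) := by gcongr
    linarith
  have hdiff : |al H x y * P c x - be H x y| ≤ B * (π * B * (π / 2)) * (M + 1) := by
    refine (abs_sub _ _).trans ?_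
    rw [abs_mul]
    have e1 : |al H x y| * |P c x| ≤ B * (π * B * (π / 2)) * M := by gcongr
    linarith
  unfold flx
  rw [← hy, abs_mul]
  calc |nn H x y| * |al H x y * P c x - be H x y|
      ≤ 2 * B * (π * B * M * c) * (B * (π * B * (π / 2)) * (M + 1)) := by
        gcongr
        exact (abs_nonneg _).trans hnn
    _ = _ := by ring

theorem limJ (F : Fam H Φ P Q R) {M : ℝ} (hM : 0 < M)
    (hb : ∀ c ∈ Ioc (0 : ℝ) 1, ∀ x, Φ c x - x ≤ M * c ∧ |P c x| ≤ M) :
    Tendsto (J H Φ P) (𝓝[>] 0) (𝓝 0) := by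
  obtain ⟨K, hK⟩ := flx_bound F hM hb
  have h1 : ∀ᶠ c in 𝓝[>] (0 : ℝ), |J H Φ P c| ≤ K * c * (2 * π) := by
    have hpos : 0 < min 1 (π / 2 / M) := lt_min one_pos (by positivity)
    filter_upwards [Ioo_mem_nhdsGT hpos] with c hc
    have hc1 : c ∈ Ioc (0 : ℝ) 1 := ⟨hc.1, (hc.2.trans_le (min_le_left _ _)).le⟩
    have hc2 : M * c ≤ π / 2 := by
      have := (hc.2.trans_le (min_le_right _ _)).le
      rw [le_div_iff₀ hM] at this
      linarith
    have h2 := intervalIntegral.norm_integral_le_of_norm_le_const (a := 0) (b := 2 * π)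
      (f := flx H Φ P c) (C := K * c) (fun x _ => hK c hc1 hc2 x)
    rw [sub_zero, abs_of_pos two_pi_pos] at h2
    exact h2
  have h2 : Tendsto (fun c : ℝ => K * c * (2 * π)) (𝓝[>] 0) (𝓝 0) := by
    have : Continuous (fun c : ℝ => K * c * (2 * π)) := by fun_prop
    have h3 := this.tendsto 0
    simp only [mul_zero, zero_mul] at h3
    exact h3.mono_left nhdsWithin_le_nhds
  exact squeeze_zero_norm' h1 h2

/-- The hypotheses of the rigidity theorem, in the analytic form. -/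
structure Rig (H : ℕ → ℝ → ℝ) (Φ P Q R : ℝ → ℝ → ℝ) (M : ℝ) : Prop where
  fam : Fam H Φ P Q R
  M_pos : 0 < M
  bd : ∀ c ∈ Ioc (0 : ℝ) 1, ∀ x, Φ c x - x ≤ M * c ∧ |P c x| ≤ M
  out : ∀ x, nn H x (Φ 1 x) = 0
  zero : ∀ x, Φ 0 x = x

variable {M : ℝ}

/-- The main analytic conclusion. -/
theorem Rig.rigid (T : Rig H Φ P Q R M) {c : ℝ} (hc : c ∈ Ioo (0 : ℝ) 1) (x : ℝ) :
    nn H x (Φ c x) = 0 ∧ al H x (Φ c x) * P c x = be H x (Φ c x) := by
  have F := T.fam
  have hmem : ∀ {c : ℝ}, c ∈ Ioo (0 : ℝ) 1 → c ∈ Ioc (0 : ℝ) 1 := fun h => ⟨h.1, h.2.le⟩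
  have h1m : (1 : ℝ) ∈ Ioc (0 : ℝ) 1 := ⟨one_pos, le_rfl⟩
  have hlim := limJ F T.M_pos T.bd
  have hJ1 : J H Φ P 1 = 0 := by
    unfold J flx
    simp [T.out]
  have hJ0 : ∀ c ∈ Ioo (0 : ℝ) 1, J H Φ P c = 0 := by
    intro c hc
    apply le_antisymm
    · exact (F.monoJ (hmem hc) h1m hc.2.le).trans hJ1.le
    · refine le_of_tendsto hlim ?_
      filter_upwards [Ioo_mem_nhdsGT hc.1] with t ht
      exact F.monoJ ⟨ht.1, (ht.2.trans hc.2).le⟩ (hmem hc) ht.2.le
  have hint : ∫ x in (0 : ℝ)..2 * π, pst H Φ P Q c x = 0 := by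
    have h1 : J H Φ P =ᶠ[𝓝 c] fun _ => 0 := by
      filter_upwards [Ioo_mem_nhds hc.1 hc.2] with t ht using hJ0 t ht
    exact ((F.dJ hc).congr_of_eventuallyEq h1.symm).unique (hasDerivAt_const c 0)
  have hz : ∀ x ∈ Icc (0 : ℝ) (2 * π), pst H Φ P Q c x = 0 := by
    intro y hy
    by_contra hne
    have h2 : 0 < pst H Φ P Q c y := lt_of_le_of_ne (F.pst_nonneg (hmem hc) y) (Ne.symm hne)
    have h4 := intervalIntegral.integral_pos (a := 0) (b := 2 * π) two_pi_pos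
      (slice F.c_pst (hmem hc)).continuousOn (fun t _ => F.pst_nonneg (hmem hc) t) ⟨y, hy, h2⟩
    exact absurd hint h4.ne'
  have L := F.leaf c (hmem hc)
  have hkey : ∀ y ∈ Icc (0 : ℝ) (2 * π), nn H y (Φ c y) = 0 ∧
      al H y (Φ c y) * P c y - be H y (Φ c y) = 0 := by
    intro y hy
    have h2 := hz y hy
    have p1 := L.pos y
    have p2 := L.cs_pos y
    have p3 := F.Qpos c (hmem hc) y
    unfold pst at h2
    have h4 := (mul_eq_zero.1 h2).resolve_left p3.ne'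
    have h5 : 0 ≤ (al H y (Φ c y) * P c y - be H y (Φ c y)) ^ 2 / P c y := by positivity
    have h6 : 0 ≤ 2 * cs (Φ c y - y) ^ 2 * nn H y (Φ c y) ^ 2 := by positivity
    have h7 : 2 * cs (Φ c y - y) ^ 2 * nn H y (Φ c y) ^ 2 = 0 := by linarith
    have h8 : (al H y (Φ c y) * P c y - be H y (Φ c y)) ^ 2 / P c y = 0 := by linarith
    refine ⟨?_, ?_⟩
    · exact pow_eq_zero_iff two_ne_zero |>.1 ((mul_eq_zero.1 h7).resolve_left (by positivity))
    · rw [div_eq_zero_iff] at h8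
      exact pow_eq_zero_iff two_ne_zero |>.1 (h8.resolve_right p1.ne')
  have hp1 : Function.Periodic (fun x => nn H x (Φ c x)) (2 * π) := fun x => F.per_nn (hmem hc) x
  have hp2 : Function.Periodic (fun x => al H x (Φ c x) * P c x - be H x (Φ c x)) (2 * π) := by
    intro x
    simp only [F.per_al (hmem hc), F.per_be (hmem hc), F.per_P (hmem hc)]
  constructor
  · obtain ⟨y, hy, hxy⟩ := hp1.exists_mem_Ico₀ two_pi_pos x
    have := (hkey y ⟨hy.1, hy.2.le⟩).1
    exact hxy.trans this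
  · obtain ⟨y, hy, hxy⟩ := hp2.exists_mem_Ico₀ two_pi_pos x
    have := (hkey y ⟨hy.1, hy.2.le⟩).2
    exact sub_eq_zero.1 (hxy.trans this)

theorem Rig.partials (T : Rig H Φ P Q R M) {c : ℝ} (hc : c ∈ Ioo (0 : ℝ) 1) (x : ℝ) :
    nnx H x (Φ c x) = 0 ∧ nny H x (Φ c x) = 0 := by
  have F := T.fam
  have hc' : c ∈ Ioc (0 : ℝ) 1 := ⟨hc.1, hc.2.le⟩
  have hs := ((F.leaf c hc').sin_pos x).ne'
  have d1 := der_nn F.jet (hasDerivAt_const c x) (F.dc c x) hs
  have d2 := der_nn F.jet (hasDerivAt_id x) (F.dx c x) hs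
  have z1 : (fun t => nn H x (Φ t x)) =ᶠ[𝓝 c] fun _ => 0 := by
    filter_upwards [Ioo_mem_nhds hc.1 hc.2] with t ht using (T.rigid ht x).1
  have z2 : (fun t => nn H (id t) (Φ c t)) = fun _ => 0 := funext fun t => (T.rigid hc t).1
  have e1 := (d1.congr_of_eventuallyEq z1.symm).unique (hasDerivAt_const c (0 : ℝ))
  rw [z2] at d2
  have e2 := d2.unique (hasDerivAt_const x (0 : ℝ))
  simp only [id, mul_zero, zero_add, mul_one] at e1 e2
  have hy := (mul_eq_zero.1 e1).resolve_right (F.Qpos c hc' x).ne'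
  refine ⟨?_, hy⟩
  rw [hy] at e2
  linarith

/-- The first integral is constant on the leaves. -/
theorem Rig.ell_const (T : Rig H Φ P Q R M) {c : ℝ} (hc : c ∈ Ioo (0 : ℝ) 1) (x : ℝ) :
    H 0 x * sp H x (Φ c x) = H 0 0 * sp H 0 (Φ c 0) := by
  have F := T.fam
  have hc' : c ∈ Ioc (0 : ℝ) 1 := ⟨hc.1, hc.2.le⟩
  have e : ∀ x, HasDerivAt (fun x => H 0 x * sp H x (Φ c x)) 0 x := by
    intro x
    have hs := ((F.leaf c hc').sin_pos x).ne'
    have hX := hasDerivAt_id x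
    have hY := F.dx c x
    have h := (der_H F.jet 0 hX).mul (der_sp F.jet hX hY hs)
    refine h.congr_deriv ?_
    have h1 := (T.partials hc x).1
    have h2 := (T.rigid hc x).2
    unfold nnx at h1
    unfold al be at h2
    simp only [id, zero_add]
    linear_combination h1 + h2
  exact is_const_of_deriv_eq_zero (fun x => (e x).differentiableAt) (fun x => (e x).deriv) x 0

theorem Rig.ell_const' (T : Rig H Φ P Q R M) {c : ℝ} (hc : c ∈ Ioc (0 : ℝ) 1) (x : ℝ) :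
    H 0 x * sp H x (Φ c x) = H 0 0 * sp H 0 (Φ c 0) := by
  have F := T.fam
  rcases lt_or_eq_of_le hc.2 with h | h
  · exact T.ell_const ⟨hc.1, h⟩ x
  · subst h
    have hl : ∀ x, ContinuousAt (fun c => H 0 x * sp H x (Φ c x)) 1 := fun x =>
      continuousAt_const.mul (der_sp F.jet (hasDerivAt_const 1 x) (F.dc 1 x)
        ((F.leaf 1 hc).sin_pos x).ne').continuousAt
    have h1 : Tendsto (fun c => H 0 x * sp H x (Φ c x)) (𝓝[<] 1)
        (𝓝 (H 0 x * sp H x (Φ 1 x))) := (hl x).tendsto.mono_left nhdsWithin_le_nhds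
    have h2 : Tendsto (fun c => H 0 0 * sp H 0 (Φ c 0)) (𝓝[<] 1)
        (𝓝 (H 0 0 * sp H 0 (Φ 1 0))) := (hl 0).tendsto.mono_left nhdsWithin_le_nhds
    refine tendsto_nhds_unique (h1.congr' ?_) h2
    filter_upwards [Ioo_mem_nhdsLT (zero_lt_one (α := ℝ))] with t ht
    exact T.ell_const ht x

end Pool.Agent.R279.OB
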